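import Pool.Agent.N399.TB.Many

set_option autoImplicit false
set_option linter.unusedSectionVars false

/-!
# Tree decompositions of adhesion four
-/

namespace Pool.Agent.N399.TB

open Finset Pool.Agent.TH462.T4 Pool.Agent.TH676.T4 Pool.Agent.TH497.T4

theorem side_path {ι : Type} {T : SimpleGraph ι} (hT : T.IsTree) {a b x y : ι}
    (hab : T.Adj a b) (hx : x ∈ Side T a b) (hy : y ∈ Side T b a) (p : T.Walk x y) :
    a ∈ p.support ∧ b ∈ p.support := by
  by_cases h : s(a, b) ∈ p.edges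
  · exact ⟨SimpleGraph.Walk.fst_mem_support_of_mem_edges p h,
      SimpleGraph.Walk.snd_mem_support_of_mem_edges p h⟩
  · exfalso
    have h1 : (T.deleteEdges {s(a, b)}).Reachable x y :=
      ⟨p.toDeleteEdges {s(a, b)} fun e he h2 => h (by
        have h3 : e = s(a, b) := h2
        rw [← h3]
        exact he)⟩
    exact side_not hT hab (x := y) ((show (T.deleteEdges {s(a, b)}).Reachable b x from hx).trans h1)
      hy

variable {V E : Type} [Fintype V] [DecidableEq V] [Fintype E] [DecidableEq E]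

/-- the part of the node `b` -/
def part {ι : Type} (src dst : E → V) (T : SimpleGraph ι) (leaf : E → ι) (b : ι) : Set V :=
  {v | (∃ e, (src e = v ∨ dst e = v) ∧ leaf e = b) ∨ ∃ w, T.Adj b w ∧ v ∈ mid src dst T leaf b w}

structure AD {ι : Type} (src dst : E → V) (T : SimpleGraph ι) (leaf : E → ι) : Prop where
  tree : T.IsTree
  pt : ∀ b, ∃ (s : ℕ) (Z : Fin s → Finset V), (∀ i, (Z i).card ≤ 4) ∧
    (∀ w, T.Adj b w → ∃ i, ∀ v ∈ mid src dst T leaf b w, v ∈ Z i) ∧
    (part src dst T leaf b).ncard + ∑ i, ((Z i).card - 2) ≤ 17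

def HasAD (src dst : E → V) : Prop :=
  ∃ (ι : Type) (_ : Fintype ι) (T : SimpleGraph ι) (leaf : E → ι), AD src dst T leaf

theorem mid_lp {ι : Type} {T : SimpleGraph ι} {leaf : E → ι} {src dst : E → V} {e : E} {a b : ι}
    {v : V} (h : v ∈ mid src (TH462.T4.lp src dst {e}) T leaf a b) :
    v ∈ mid src dst T leaf a b := by
  have key : ∀ d v, (src d = v ∨ TH462.T4.lp src dst {e} d = v) → (src d = v ∨ dst d = v) := by
    intro d v hd
    unfold TH462.T4.lp at hd
    split_ifs at hd with h1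
    · exact Or.inl (hd.elim id id)
    · exact hd
  obtain ⟨⟨d, h1, h2⟩, d', h3, h4⟩ := h
  exact ⟨⟨d, key d v h1, h2⟩, d', key d' v h3, h4⟩

theorem mid_ctr {ι : Type} {T : SimpleGraph ι} {leaf : E → ι} {src dst : E → V} {e : E} {a b : ι}
    (hT : T.IsTree) {v : V}
    (h : v ∈ mid (ctr (src e) (dst e) ∘ src) (ctr (src e) (dst e) ∘ dst) T leaf a b) :
    ∃ y ∈ mid src dst T leaf a b, ctr (src e) (dst e) y = v := by
  obtain ⟨⟨d, h1, h2⟩, d', h3, h4⟩ := h
  have k1 : ∃ y, (src d = y ∨ dst d = y) ∧ ctr (src e) (dst e) y = v := by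
    rcases h1 with h1 | h1
    · exact ⟨_, Or.inl rfl, h1⟩
    · exact ⟨_, Or.inr rfl, h1⟩
  have k2 : ∃ y, (src d' = y ∨ dst d' = y) ∧ ctr (src e) (dst e) y = v := by
    rcases h3 with h3 | h3
    · exact ⟨_, Or.inl rfl, h3⟩
    · exact ⟨_, Or.inr rfl, h3⟩
  obtain ⟨y, hy, hyv⟩ := k1
  obtain ⟨y', hy', hyv'⟩ := k2
  by_cases hyy : y = y'
  · subst hyy
    exact ⟨y, ⟨⟨d, hy, h2⟩, d', hy', h4⟩, hyv⟩
  · -- then `y` and `y'` are the ends of `e`
    have hends : ∀ z z' : V, z ≠ z' → ctr (src e) (dst e) z = v → ctr (src e) (dst e) z' = v →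
        (src e = z ∨ dst e = z) := by
      intro z z' hzz h5 h6
      unfold ctr at h5 h6
      by_cases h7 : z = dst e
      · exact Or.inr h7.symm
      · rw [if_neg h7] at h5
        by_cases h8 : z' = dst e
        · rw [if_pos h8] at h6
          exact Or.inl (h6.trans h5.symm)
        · rw [if_neg h8] at h6
          exact absurd (h5.trans h6.symm) hzz
    have e1 := hends y y' hyy hyv hyv'
    have e2 := hends y' y (Ne.symm hyy) hyv' hyv
    rcases side_or hT (a := a) (b := b) (leaf e) with h5 | h5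
    · exact ⟨y', ⟨⟨e, e2, h5⟩, d', hy', h4⟩, hyv'⟩
    · exact ⟨y, ⟨⟨d, hy, h2⟩, e, e1, h5⟩, hyv⟩

theorem mc_ad : MC (V := V) (E := E) HasAD where
  del := by
    rintro src dst e ⟨ι, _, T, leaf, h⟩ hne
    refine ⟨ι, inferInstance, T, leaf, h.tree, fun b => ?_⟩
    obtain ⟨s, Z, z1, z2, z3⟩ := h.pt b
    refine ⟨s, Z, z1, fun w hw => ?_, ?_⟩
    · obtain ⟨i, hZ2⟩ := z2 w hw
      exact ⟨i, fun v hv => hZ2 v (mid_lp hv)⟩
    · refine le_trans (Nat.add_le_add_right (Set.ncard_le_ncard ?_ (Set.toFinite _)) _) z3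
      rintro v (⟨d, h1, h2⟩ | ⟨w, hw, hv⟩)
      · refine Or.inl ⟨d, ?_, h2⟩
        unfold TH462.T4.lp at h1
        split_ifs at h1 with h3
        · exact Or.inl (h1.elim id id)
        · exact h1
      · exact Or.inr ⟨w, hw, mid_lp hv⟩
  con := by
    rintro src dst e ⟨ι, _, T, leaf, h⟩ hne
    refine ⟨ι, inferInstance, T, leaf, h.tree, fun b => ?_⟩
    obtain ⟨s, Z, z1, z2, z3⟩ := h.pt b
    refine ⟨s, fun i => (Z i).image (ctr (src e) (dst e)), ?_, fun w hw => ?_, ?_⟩
    · intro i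
      exact card_image_le.trans (z1 i)
    · obtain ⟨i, hZ2⟩ := z2 w hw
      refine ⟨i, fun v hv => ?_⟩
      obtain ⟨y, hy, rfl⟩ := mid_ctr h.tree hv
      exact mem_image_of_mem _ (hZ2 y hy)
    · have h1 : (part (ctr (src e) (dst e) ∘ src) (ctr (src e) (dst e) ∘ dst) T leaf b).ncard ≤
          (part src dst T leaf b).ncard := by
        refine le_trans (Set.ncard_le_ncard ?_ (Set.toFinite _))
          (Set.ncard_image_le (f := ctr (src e) (dst e)) (Set.toFinite _))
        rintro v (⟨d, h1, h2⟩ | ⟨w, hw, hv⟩)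
        · rcases h1 with h1 | h1
          · exact ⟨src d, Or.inl ⟨d, Or.inl rfl, h2⟩, h1⟩
          · exact ⟨dst d, Or.inl ⟨d, Or.inr rfl, h2⟩, h1⟩
        · obtain ⟨y, hy, rfl⟩ := mid_ctr h.tree hv
          exact ⟨y, Or.inr ⟨w, hw, hy⟩, rfl⟩
      have h2 : ∑ i, (((Z i).image (ctr (src e) (dst e))).card - 2) ≤ ∑ i, ((Z i).card - 2) :=
        sum_le_sum fun i _ => Nat.sub_le_sub_right card_image_le 2
      exact (Nat.add_le_add h1 h2).trans z3

open Classical in
theorem ad_false {src dst : E → V} (hM : MinCx src dst)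
    (hn : 18 ≤ (univ.filter (fun v => Nis src dst v)).card) (hB : HasAD src dst) : False := by
  obtain ⟨ι, _, T, leaf, h⟩ := hB
  set N : Finset V := univ.filter (fun v => Nis src dst v) with hN
  set I : ι → ι → Finset V := fun a b =>
    univ.filter (fun x => ∀ e, (src e = x ∨ dst e = x) → leaf e ∈ Side T a b) with hI
  have memI : ∀ a b x, x ∈ I a b ↔ ∀ e, (src e = x ∨ dst e = x) → leaf e ∈ Side T a b := by
    intro a b x; simp [hI]
  -- the set `I a b` is attached to the middle set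
  have hatt : ∀ a b, T.Adj a b → ∀ e, (src e ∈ I a b ∨ dst e ∈ I a b) → ∀ x,
      (src e = x ∨ dst e = x) → x ∈ I a b ∨ x ∈ mid src dst T leaf a b := by
    intro a b hab e he x hx
    have h1 : leaf e ∈ Side T a b := by
      rcases he with h2 | h2
      · exact (memI a b _).mp h2 e (Or.inl rfl)
      · exact (memI a b _).mp h2 e (Or.inr rfl)
    by_cases h3 : x ∈ I a b
    · exact Or.inl h3
    · rw [memI] at h3
      push Not at h3
      obtain ⟨d, hd, hd2⟩ := h3
      exact Or.inr ⟨⟨e, hx, h1⟩, d, hd, (side_or h.tree (leaf d)).resolve_left hd2⟩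
  -- separations
  have hsep : ∀ (Z J : Finset V), Z.card ≤ 4 →
      (∀ e, (src e ∈ J ∨ dst e ∈ J) → ∀ x, (src e = x ∨ dst e = x) → x ∈ J ∨ x ∈ Z) →
      (J ∩ N).card ≤ Z.card - 2 ∨ ((J ∪ Z)ᶜ ∩ N).card ≤ Z.card - 2 ∨ ¬ Disjoint J Z := by
    intro Z J hZ hJ
    by_contra hno
    push Not at hno
    obtain ⟨g1, g2, g3⟩ := hno
    have hO : ∀ y ∈ (J ∪ Z)ᶜ ∩ N, y ∉ J ∧ y ∉ Z ∧ Nis src dst y := by
      intro y hy
      rw [mem_inter, mem_compl, mem_union, not_or] at hy
      exact ⟨hy.1.1, hy.1.2, (mem_filter.mp hy.2).2⟩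
    have hx : ∀ x ∈ J ∩ N, x ∈ J ∧ Nis src dst x := by
      intro x hx
      obtain ⟨h1, h2⟩ := mem_inter.mp hx
      exact ⟨h1, (mem_filter.mp h2).2⟩
    have hc : Closed src dst Z J := by
      intro e he
      exact ⟨mem_union.mpr (hJ e he _ (Or.inl rfl)), mem_union.mpr (hJ e he _ (Or.inr rfl))⟩
    by_cases hZ4 : Z.card = 4
    · rw [hZ4] at g1 g2
      obtain ⟨x1, m1, x2, m2, x3, m3, n12, n13, n23⟩ := two_lt_card.mp (show 2 < _ from g1)
      obtain ⟨y1, k1, y2, k2, y3, k3, l12, l13, l23⟩ := two_lt_card.mp (show 2 < _ from g2)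
      exact sep4 hM hc g3 hZ (hx _ m1).1 (hx _ m2).1 (hx _ m3).1
        n12 n13 n23 (hx _ m1).2 (hx _ m2).2 (hx _ m3).2 (hO _ k1).1 (hO _ k1).2.1 (hO _ k2).1
        (hO _ k2).2.1 (hO _ k3).1 (hO _ k3).2.1 l12 l13 l23 (hO _ k1).2.2 (hO _ k2).2.2
        (hO _ k3).2.2
    by_cases hZ3 : Z.card = 3
    · rw [hZ3] at g1 g2
      obtain ⟨x1, m1, x2, m2, n12⟩ := one_lt_card.mp (show 1 < _ from g1)
      obtain ⟨y1, k1, y2, k2, l12⟩ := one_lt_card.mp (show 1 < _ from g2)
      exact sep3 hM hc (by omega) (hx _ m1).1 (hx _ m1).2 (hx _ m2).1 (hx _ m2).2 n12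
        (hO _ k1).1 (hO _ k1).2.1 (hO _ k1).2.2 (hO _ k2).1 (hO _ k2).2.1 (hO _ k2).2.2 l12
    · obtain ⟨x, m1⟩ := card_pos.mp (show 0 < (J ∩ N).card by omega)
      obtain ⟨y, k1⟩ := card_pos.mp (show 0 < ((J ∪ Z)ᶜ ∩ N).card by omega)
      exact sep2 hM hc (by omega) (hx _ m1).1 (hx _ m1).2 (hO _ k1).1 (hO _ k1).2.1 (hO _ k1).2.2
  have hnot : ∀ a b, T.Adj a b → ∀ x ∈ I a b, x ∉ mid src dst T leaf a b := by
    intro a b hab x hx hz
    obtain ⟨-, d, hd, hd2⟩ := hz
    exact side_not h.tree hab ((memI a b x).mp hx d hd) hd2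
  -- one of the two sides is small
  have hsm : ∀ a b, T.Adj a b → (I a b ∩ N).card ≤ 2 ∨ (I b a ∩ N).card ≤ 2 := by
    intro a b hab
    obtain ⟨s, Z, z1, z2, -⟩ := h.pt a
    obtain ⟨i, hZ2⟩ := z2 b hab
    set Z' := (Z i).filter (fun v => v ∈ mid src dst T leaf a b) with hZ'
    have hZ'c : Z'.card ≤ 4 := (card_le_card (filter_subset _ _)).trans (z1 i)
    have hmem : ∀ x, x ∈ Z' ↔ x ∈ mid src dst T leaf a b := by
      intro x
      rw [hZ', mem_filter]
      exact ⟨fun h1 => h1.2, fun h1 => ⟨hZ2 x h1, h1⟩⟩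
    rcases hsep Z' (I a b) hZ'c (fun e he x hx => by
        rw [hmem]; exact hatt a b hab e he x hx) with h1 | h1 | h1
    · exact Or.inl (h1.trans (by omega))
    · refine Or.inr (le_trans (card_le_card ?_) (h1.trans (show Z'.card - 2 ≤ 2 by omega)))
      intro y hy
      obtain ⟨h2, h3⟩ := mem_inter.mp hy
      obtain ⟨e, _, he⟩ := (mem_filter.mp h3).2
      refine mem_inter.mpr ⟨?_, h3⟩
      rw [mem_compl, mem_union, not_or, hmem]
      refine ⟨fun h4 => ?_, fun h4 => ?_⟩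
      · exact side_not h.tree hab ((memI a b y).mp h4 e he) ((memI b a y).mp h2 e he)
      · obtain ⟨⟨d, hd, hd2⟩, -⟩ := h4
        exact side_not h.tree hab hd2 ((memI b a y).mp h2 d hd)
    · exfalso
      apply h1
      rw [disjoint_left]
      intro x hx hz
      exact hnot a b hab x hx ((hmem x).mp hz)
  obtain ⟨v, hv⟩ := tree_sink h.tree _ hsm
  obtain ⟨s, Z, z1, z2, z3⟩ := h.pt v
  set D : Finset ι := univ.filter (fun w => T.Adj v w) with hD
  have memD : ∀ w, w ∈ D ↔ T.Adj v w := by intro w; simp [hD]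
  -- the vertices of the part of `v`
  set P : Finset V := univ.filter (fun x => x ∈ part src dst T leaf v) with hP
  have memP : ∀ x, x ∈ P ↔ x ∈ part src dst T leaf v := by intro x; simp [hP]
  have hPI : ∀ w, T.Adj v w → ∀ x ∈ I v w, x ∉ P := by
    intro w hw x hx hxP
    have hx' := (memI v w x).mp hx
    rcases (memP x).mp hxP with ⟨e, he, hev⟩ | ⟨w', hw', h1⟩
    · have h2 := hx' e he
      rw [hev] at h2
      exact side_not h.tree hw h2 (SimpleGraph.Reachable.refl _)
    · by_cases hww : w' = w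
      · subst hww
        exact hnot v w' hw x hx h1
      · obtain ⟨⟨e, he, he2⟩, -⟩ := h1
        exact side_disj h.tree hw' hw hww he2 (hx' e he)
  -- the sides which belong to a set `Z`
  set DZ : Fin s → Finset ι := fun i => D.filter (fun w => ∀ x ∈ mid src dst T leaf v w, x ∈ Z i)
    with hDZ
  have key : ∀ i, ∀ U : Finset ι, U ⊆ DZ i →
      ((U.biUnion (fun w => I v w)) ∩ N).card ≤ (Z i).card - 2 := by
    intro i U
    induction U using Finset.induction_on with
    | empty => intro _; simp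
    | insert w U hw ih =>
      intro hU
      have h1 := ih (fun x hx => hU (mem_insert_of_mem hx))
      have hwD : w ∈ DZ i := hU (mem_insert_self _ _)
      have hZi := z1 i
      have hvw : T.Adj v w := (memD w).mp (mem_filter.mp hwD).1
      have h2 : (I v w ∩ N).card ≤ 2 := hv w hvw
      set J := (insert w U).biUnion (fun w => I v w) with hJ
      have h3 : (J ∩ N).card ≤ 4 := by
        have : J ∩ N ⊆ (I v w ∩ N) ∪ ((U.biUnion (fun w => I v w)) ∩ N) := by
          intro x hx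
          rw [mem_inter, hJ, mem_biUnion] at hx
          obtain ⟨⟨w', hw', hx1⟩, hx3⟩ := hx
          rcases mem_insert.mp hw' with rfl | hw'
          · exact mem_union_left _ (mem_inter.mpr ⟨hx1, hx3⟩)
          · exact mem_union_right _ (mem_inter.mpr ⟨mem_biUnion.mpr ⟨w', hw', hx1⟩, hx3⟩)
        have := card_le_card this
        have := card_union_le (I v w ∩ N) ((U.biUnion (fun w => I v w)) ∩ N)
        omega
      have hZP : (Z i ∩ P).card ≤ (Z i).card := card_le_card inter_subset_left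
      have hZc : (Z i ∩ P).card ≤ 4 := hZP.trans (z1 i)
      rcases hsep (Z i ∩ P) J hZc (fun e he x hx => by
          have h5 : ∃ w' ∈ insert w U, src e ∈ I v w' ∨ dst e ∈ I v w' := by
            rcases he with h6 | h6
            · obtain ⟨w', hw', h7⟩ := mem_biUnion.mp h6
              exact ⟨w', hw', Or.inl h7⟩
            · obtain ⟨w', hw', h7⟩ := mem_biUnion.mp h6
              exact ⟨w', hw', Or.inr h7⟩
          obtain ⟨w', hw', h7⟩ := h5
          have hw'D := mem_filter.mp (hU hw')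
          have hvw' := (memD w').mp hw'D.1
          rcases hatt v w' hvw' e h7 x hx with h8 | h8
          · exact Or.inl (mem_biUnion.mpr ⟨w', hw', h8⟩)
          · exact Or.inr (mem_inter.mpr ⟨hw'D.2 x h8, (memP x).mpr (Or.inr ⟨w', hvw', h8⟩)⟩))
        with h4 | h4 | h4
      · omega
      · exfalso
        have h5 : N ⊆ (J ∩ N) ∪ ((Z i ∩ P) ∪ ((J ∪ (Z i ∩ P))ᶜ ∩ N)) := by
          intro x hx
          by_cases h6 : x ∈ J
          · exact mem_union_left _ (mem_inter.mpr ⟨h6, hx⟩)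
          · by_cases h7 : x ∈ Z i ∩ P
            · exact mem_union_right _ (mem_union_left _ h7)
            · refine mem_union_right _ (mem_union_right _ (mem_inter.mpr ⟨?_, hx⟩))
              rw [mem_compl, mem_union, not_or]
              exact ⟨h6, h7⟩
        have h6 := card_le_card h5
        have h7 := card_union_le (J ∩ N) ((Z i ∩ P) ∪ ((J ∪ (Z i ∩ P))ᶜ ∩ N))
        have h8 := card_union_le (Z i ∩ P) ((J ∪ (Z i ∩ P))ᶜ ∩ N)
        omega
      · exfalso
        apply h4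
        rw [disjoint_left]
        intro x hx hx2
        obtain ⟨w', hw', h7⟩ := mem_biUnion.mp hx
        exact hPI w' ((memD w').mp (mem_filter.mp (hU hw')).1) x h7 (mem_inter.mp hx2).2
  have hPc : P.card = (part src dst T leaf v).ncard := by
    rw [Set.ncard_eq_toFinset_card']
    congr 1
    ext x
    simp [hP]
  have hsub : N ⊆ P ∪ univ.biUnion (fun i => ((DZ i).biUnion (fun w => I v w)) ∩ N) := by
    intro x hx
    obtain ⟨e, _, he⟩ := (mem_filter.mp hx).2
    by_cases hev : leaf e = v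
    · exact mem_union_left _ ((memP x).mpr (Or.inl ⟨e, he, hev⟩))
    · obtain ⟨w, hw, hew⟩ := side_first h.tree hev
      by_cases h1 : x ∈ I v w
      · obtain ⟨i, hZ2⟩ := z2 w hw
        refine mem_union_right _ (mem_biUnion.mpr ⟨i, mem_univ _, mem_inter.mpr ⟨mem_biUnion.mpr
          ⟨w, mem_filter.mpr ⟨(memD w).mpr hw, hZ2⟩, h1⟩, hx⟩⟩)
      · rw [memI] at h1
        push Not at h1
        obtain ⟨d, hd, hd2⟩ := h1
        refine mem_union_left _ ((memP x).mpr (Or.inr ⟨w, hw, ?_⟩))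
        exact ⟨⟨e, he, hew⟩, d, hd, (side_or h.tree (leaf d)).resolve_left hd2⟩
  have h1 : (univ.biUnion (fun i => ((DZ i).biUnion (fun w => I v w)) ∩ N)).card ≤
      ∑ i, ((Z i).card - 2) :=
    card_biUnion_le.trans (sum_le_sum fun i _ => key i (DZ i) (Finset.Subset.refl _))
  have h2 := card_le_card hsub
  have h3 := card_union_le P (univ.biUnion (fun i => ((DZ i).biUnion (fun w => I v w)) ∩ N))
  omega

/-- **Adhesion four.**  Flows of the graphs with a tree decomposition of adhesion at most four and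
small parts. -/
theorem ad4 {src dst : E → V} (hB : HasAD src dst) (hP : ¬ PetMinor src dst)
    (hbr : Br src dst ∅ ∅) : FlowOn src dst ∅ ∅ := by
  by_contra hf
  obtain ⟨s, d, ⟨h1, h2⟩, hM⟩ := exists_minCx (MC.and mc_ad mc_noPet) src dst ⟨hB, hP⟩ hbr hf
  exact ad_false hM (many hM h2) h1

/-- the usual tree decompositions -/
theorem hasAD_of_tree {src dst : E → V} {ι : Type} [Fintype ι] {T : SimpleGraph ι}
    (hT : T.IsTree) (bag : ι → Finset V) (h1 : ∀ e, ∃ i, src e ∈ bag i ∧ dst e ∈ bag i)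
    (h2 : ∀ (i j : ι) (p : T.Walk i j), p.IsPath → ∀ k ∈ p.support, ∀ v, v ∈ bag i → v ∈ bag j →
      v ∈ bag k)
    (h3 : ∀ b, ∃ (s : ℕ) (Z : Fin s → Finset V), (∀ i, (Z i).card ≤ 4) ∧
      (∀ w, T.Adj b w → ∃ i, bag b ∩ bag w ⊆ Z i) ∧
      (bag b).card + ∑ i, ((Z i).card - 2) ≤ 17) :
    HasAD src dst := by
  classical
  choose τ hτ using h1
  have hmid : ∀ a b, T.Adj a b → ∀ v ∈ mid src dst T τ a b, v ∈ bag a ∧ v ∈ bag b := by
    rintro a b hab v ⟨⟨e, he, he2⟩, e', he', he2'⟩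
    have k1 : v ∈ bag (τ e) := by
      rcases he with rfl | rfl
      · exact (hτ e).1
      · exact (hτ e).2
    have k2 : v ∈ bag (τ e') := by
      rcases he' with rfl | rfl
      · exact (hτ e').1
      · exact (hτ e').2
    obtain ⟨p, hp⟩ := (hT.1.preconnected (τ e) (τ e')).exists_isPath
    obtain ⟨k3, k4⟩ := side_path hT hab he2 he2' p
    exact ⟨h2 _ _ p hp a k3 v k1 k2, h2 _ _ p hp b k4 v k1 k2⟩
  refine ⟨ι, inferInstance, T, τ, hT, fun b => ?_⟩
  obtain ⟨s, Z, z1, z2, z3⟩ := h3 b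
  refine ⟨s, Z, z1, fun w hw => ?_, ?_⟩
  · obtain ⟨i, hZ2⟩ := z2 w hw
    exact ⟨i, fun v hv => hZ2 (mem_inter.mpr (hmid b w hw v hv))⟩
  · refine le_trans (Nat.add_le_add_right ?_ _) z3
    rw [← Set.ncard_coe_finset]
    refine Set.ncard_le_ncard ?_ (Set.toFinite _)
    rintro v (⟨e, he, rfl⟩ | ⟨w, hw, hv⟩)
    · rcases he with rfl | rfl
      · exact (hτ e).1
      · exact (hτ e).2
    · exact (hmid b w hw v hv).1

end Pool.Agent.N399.TB
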