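import Pool.Agent.TH443.P5.TRANS
import Pool.Agent.TH676.T4.Pet
import Pool.Agent.TH676.Blk.Main

set_option autoImplicit false
set_option linter.unusedSectionVars false

/-!
# From flows of graphs without Petersen minor to cographic 2-blocks
-/

namespace Pool.Agent.N399.TB

open Finset Pool.Agent.TH462.T4 Pool.Agent.TH676.T4

theorem nz_of_cls {V E : Type} [Fintype V] [DecidableEq V] [Fintype E] [DecidableEq E]
    {src dst : E → V} (hcls : ¬ PetMinor src dst → Br src dst ∅ ∅ → FlowOn src dst ∅ ∅)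
    (hPM : ¬ Pool.Agent.TH499.TF.PM src dst)
    (hB : ∀ Y : Finset V, (Pool.Agent.TH499.TF.dlt src dst Y).card ≠ 1) :
    Pool.Agent.TH499.TF.NZ src dst := by
  have h1 : ¬ PetMinor src dst := by
    rintro ⟨B, b1, b2, b3⟩
    refine hPM ⟨fun s => B (Pool.Agent.TH443.P5.bt s.1), ?_, ?_, ?_⟩
    · intro s A hA hAn hAne
      obtain ⟨e, he⟩ := (b1 (Pool.Agent.TH443.P5.bt s.1)).2 A hA hAn hAne
      rcases he with ⟨h3, h4⟩ | ⟨h3, h4⟩
      · exact ⟨e, src e, dst e, h3, (mem_sdiff.mp h4).1, (mem_sdiff.mp h4).2, Or.inl ⟨rfl, rfl⟩⟩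
      · exact ⟨e, dst e, src e, h4, (mem_sdiff.mp h3).1, (mem_sdiff.mp h3).2, Or.inr ⟨rfl, rfl⟩⟩
    · intro s t hst
      apply b2
      intro h5
      exact hst (Subtype.ext (Pool.Agent.TH443.P5.bt_inj s.1 (Pool.Agent.TH443.P5.mem_psc s.2) t.1
        (Pool.Agent.TH443.P5.mem_psc t.2) h5))
    · intro s t hst
      rcases Pool.Agent.TH443.P5.bt_adj s.1 (Pool.Agent.TH443.P5.mem_psc s.2) t.1
        (Pool.Agent.TH443.P5.mem_psc t.2) hst with h4 | h4
      · obtain ⟨e, he⟩ := b3 _ h4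
        rcases he with ⟨h5, h6⟩ | ⟨h5, h6⟩
        · exact ⟨e, src e, dst e, h5, h6, Or.inl ⟨rfl, rfl⟩⟩
        · exact ⟨e, dst e, src e, h6, h5, Or.inr ⟨rfl, rfl⟩⟩
      · obtain ⟨e, he⟩ := b3 _ h4
        rcases he with ⟨h5, h6⟩ | ⟨h5, h6⟩
        · exact ⟨e, dst e, src e, h6, h5, Or.inr ⟨rfl, rfl⟩⟩
        · exact ⟨e, src e, dst e, h5, h6, Or.inl ⟨rfl, rfl⟩⟩
  have h2 : Br src dst ∅ ∅ := by
    intro Y _
    rw [sdiff_empty]
    exact hB Y
  obtain ⟨f, f1, _, f3⟩ := hcls h1 h2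
  exact ⟨f, fun e => f3 e (notMem_empty _) (notMem_empty _), fun x => f1 x⟩

/-- 2-blocks have a Petersen minor -/
theorem blk_minor {n : ℕ} {S : Set (Fin n → ZMod 2)} {V E : Type} [Fintype V] [DecidableEq V]
    [Fintype E] [DecidableEq E] {src dst : E → V} {vec : E → Fin n → ZMod 2}
    (hv' : TH676.Blk.RepCo src dst vec) (hr : Set.range vec = S)
    (hcls : ¬ PetMinor src dst → Br src dst ∅ ∅ → FlowOn src dst ∅ ∅)
    (hz : (0 : Fin n → ZMod 2) ∉ S)
    (hL : ¬ ∃ L : (Fin n → ZMod 2) →ₗ[ZMod 2] (Fin 2 → ZMod 2), ∀ s ∈ S, L s ≠ 0) :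
    ∃ (C : Set (Fin n → ZMod 2)) (t : Fin 15 → Fin n → ZMod 2),
        C ⊆ S ∧ Set.range t ⊆ S ∧ Function.Injective t ∧
        ∀ x : Fin 15 → ZMod 2, ∑ k, x k • t k ∈ Submodule.span (ZMod 2) C ↔
          x ∈ TH676.Blk.PC := by
  classical
  have h0 : ∀ e, vec e ≠ 0 := by
    intro e he
    apply hz
    rw [← hr, ← he]
    exact ⟨e, rfl⟩
  have hnz : ¬ TH499.TF.NZ src dst := by
    intro h
    obtain ⟨L, hL'⟩ := hv'.map h
    apply hL
    refine ⟨L, fun s hs => ?_⟩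
    rw [← hr] at hs
    obtain ⟨e, rfl⟩ := hs
    exact hL' e
  have hPM : TH499.TF.PM src dst := by
    by_contra hPM
    exact hnz (nz_of_cls hcls hPM (hv'.br h0))
  obtain ⟨D, ed, hx⟩ := hv'.minor hPM
  refine ⟨vec '' (D : Set E), fun k => vec (ed k), ?_, ?_, ?_, hx⟩
  · rintro _ ⟨e, _, rfl⟩
    rw [← hr]
    exact ⟨e, rfl⟩
  · rintro _ ⟨k, rfl⟩
    rw [← hr]
    exact ⟨ed k, rfl⟩
  · intro k l hkl
    by_contra hne
    apply TH676.Blk.pair_not_mem k l hne
    rw [← hx]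
    have : ∑ m, (Pi.single k 1 + Pi.single l 1 : Fin 15 → ZMod 2) m • vec (ed m) = 0 := by
      simp only [Pi.add_apply, add_smul]
      rw [Finset.sum_add_distrib]
      simp only [Pi.single_apply, ite_smul, one_smul, zero_smul, Finset.sum_ite_eq',
        Finset.mem_univ, if_true]
      have h3 : vec (ed k) = vec (ed l) := hkl
      rw [h3]
      funext i
      exact CharTwo.add_self_eq_zero _
    rw [this]
    exact Submodule.zero_mem _

/-- tangential 2-blocks with a Petersen minor -/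
theorem blk_tan {n : ℕ} {S : Set (Fin n → ZMod 2)}
    (htan : ∀ C T : Set (Fin n → ZMod 2), C ⊆ S → T ⊆ S → T ≠ S →
      (∀ t ∈ T, t ∉ Submodule.span (ZMod 2) C) →
      ∃ L : (Fin n → ZMod 2) →ₗ[ZMod 2] (Fin 2 → ZMod 2),
        (∀ c ∈ C, L c = 0) ∧ ∀ t ∈ T, L t ≠ 0)
    {C : Set (Fin n → ZMod 2)} {t : Fin 15 → Fin n → ZMod 2} (hC : C ⊆ S)
    (ht : Set.range t ⊆ S)
    (hx : ∀ x : Fin 15 → ZMod 2, ∑ k, x k • t k ∈ Submodule.span (ZMod 2) C ↔
      x ∈ TH676.Blk.PC) :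
    ∃ ψ : (Fin 15 → ZMod 2) →ₗ[ZMod 2] (Fin n → ZMod 2),
      LinearMap.ker ψ = TH676.Blk.PC ∧
      ⇑ψ '' Set.range (fun k : Fin 15 => (Pi.single k (1 : ZMod 2) : Fin 15 → ZMod 2)) = S := by
  classical
  have hsum1 : ∀ k, ∑ m, (Pi.single k 1 : Fin 15 → ZMod 2) m • t m = t k := by
    intro k
    simp only [Pi.single_apply, ite_smul, one_smul, zero_smul, Finset.sum_ite_eq',
      Finset.mem_univ, if_true]
  have hsp : ∀ k, t k ∉ Submodule.span (ZMod 2) C := by
    intro k hk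
    apply TH676.Blk.single_not_mem k
    rw [← hx, hsum1]
    exact hk
  have hTS : Set.range t = S := by
    by_contra hne
    obtain ⟨L, hL1, hL2⟩ := htan C (Set.range t) hC ht hne (by
      rintro _ ⟨k, rfl⟩
      exact hsp k)
    obtain ⟨k, hk⟩ := TH676.Blk.pet_flow (fun k => ((L (t k)) 0, (L (t k)) 1)) (by
      intro x hxP
      have h3 := (hx x).mpr hxP
      have h4 : L (∑ k, x k • t k) = 0 := by
        have hle : Submodule.span (ZMod 2) C ≤ LinearMap.ker L :=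
          Submodule.span_le.mpr (fun c hc => hL1 c hc)
        exact hle h3
      rw [map_sum] at h4
      simp only [map_smul] at h4
      have h5 := congrFun h4 0
      have h6 := congrFun h4 1
      rw [Finset.sum_apply] at h5 h6
      refine Prod.ext ?_ ?_
      · rw [Prod.fst_sum]
        exact h5
      · rw [Prod.snd_sum]
        exact h6)
    apply hL2 (t k) ⟨k, rfl⟩
    funext i
    fin_cases i
    · exact congrArg Prod.fst hk
    · exact congrArg Prod.snd hk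
  have hC0 : C = ∅ := by
    rw [Set.eq_empty_iff_forall_notMem]
    intro c hc
    have h3 := hC hc
    rw [← hTS] at h3
    obtain ⟨k, rfl⟩ := h3
    exact hsp k (Submodule.subset_span hc)
  refine ⟨Fintype.linearCombination (ZMod 2) t, ?_, ?_⟩
  · ext x
    rw [LinearMap.mem_ker, Fintype.linearCombination_apply, ← hx, hC0,
      Submodule.span_empty, Submodule.mem_bot]
  · ext s
    rw [← hTS]
    constructor
    · rintro ⟨_, ⟨k, rfl⟩, rfl⟩
      refine ⟨k, ?_⟩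
      rw [Fintype.linearCombination_apply]
      exact (hsum1 k).symm
    · rintro ⟨k, rfl⟩
      refine ⟨_, ⟨k, rfl⟩, ?_⟩
      rw [Fintype.linearCombination_apply]
      exact hsum1 k

end Pool.Agent.N399.TB
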