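import Pool.Agent.N399.TB.Kempe

set_option autoImplicit false
set_option linter.unusedSectionVars false
set_option synthInstance.maxHeartbeats 400000
set_option synthInstance.maxSize 2048

/-! # Edge cuts with four edges in a minimal counterexample -/

namespace Pool.Agent.N399.TB

open Finset Pool.Agent.TH462.T4 Pool.Agent.TH676.T4 Pool.Agent.TH497.T4

variable {V E : Type} [Fintype V] [DecidableEq V] [Fintype E] [DecidableEq E]

/-- the type of the four values at a cut -/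
def Pat (i : Fin 4) (a b c d : K4) : Prop :=
  (i = 0 → a = b ∧ a = c ∧ a = d) ∧ (i = 1 → a = b ∧ c = d ∧ a ≠ c) ∧
    (i = 2 → a = c ∧ b = d ∧ a ≠ b) ∧ (i = 3 → a = d ∧ b = c ∧ a ≠ b)

instance (i : Fin 4) (a b c d : K4) : Decidable (Pat i a b c d) := by unfold Pat; infer_instance

theorem pat_ex : ∀ a b c d : K4, a ≠ 0 → b ≠ 0 → c ≠ 0 → d ≠ 0 → a + (b + (c + d)) = 0 →
    ∃ i, Pat i a b c d := by decide +kernel

theorem pat_swap : ∀ (i : Fin 4) (a b c d z : K4), a ≠ z → b ≠ z → c ≠ z → d ≠ z → z ≠ 0 →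
    a ≠ 0 → b ≠ 0 → c ≠ 0 → d ≠ 0 → Pat i a b c d →
    (∃ j, j ≠ i ∧ Pat j (a + z) (b + z) c d) ∧ (∃ j, j ≠ i ∧ Pat j (a + z) b (c + z) d) ∧
      ∃ j, j ≠ i ∧ Pat j (a + z) b c (d + z) := by decide +kernel

theorem pat_zero : ∀ a z : K4, z ≠ 0 → Pat 1 (a + z) (a + z) a a ∧ Pat 2 (a + z) a (a + z) a ∧
    Pat 3 (a + z) a a (a + z) := by decide +kernel

theorem pat_hom (i : Fin 4) (a b c d a' b' c' d' : K4) (ha : a ≠ 0) (hb : b ≠ 0) (hc : c ≠ 0)
    (ha' : a' ≠ 0) (hb' : b' ≠ 0) (hc' : c' ≠ 0) (h : Pat i a b c d) (h' : Pat i a' b' c' d') :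
    ∃ σ : K4 →+ K4, (∀ x, σ x = 0 → x = 0) ∧ σ a' = a ∧ σ b' = b ∧ σ c' = c ∧ σ d' = d := by
  obtain ⟨p0, p1, p2, p3⟩ := h
  obtain ⟨q0, q1, q2, q3⟩ := h'
  have h4 : ∀ i : Fin 4, i = 0 ∨ i = 1 ∨ i = 2 ∨ i = 3 := by decide
  rcases h4 i with rfl | rfl | rfl | rfl
  · obtain ⟨r1, r2, r3⟩ := p0 rfl
    obtain ⟨t1, t2, t3⟩ := q0 rfl
    have hex : ∀ x : K4, x ≠ 0 → ∃ y : K4, y ≠ 0 ∧ x ≠ y := by decide
    obtain ⟨p, hp, hp2⟩ := hex _ ha
    obtain ⟨q, hq, hq2⟩ := hex _ ha'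
    obtain ⟨σ, hσ, g1, _⟩ := K4.hom a' q a p ha' hq hq2 ha hp hp2
    exact ⟨σ, hσ, g1, by rw [← t1, ← r1, g1], by rw [← t2, ← r2, g1], by rw [← t3, ← r3, g1]⟩
  · obtain ⟨r1, r2, r3⟩ := p1 rfl
    obtain ⟨t1, t2, t3⟩ := q1 rfl
    obtain ⟨σ, hσ, g1, g2⟩ := K4.hom a' c' a c ha' hc' t3 ha hc r3
    exact ⟨σ, hσ, g1, by rw [← t1, ← r1, g1], g2, by rw [← t2, ← r2, g2]⟩
  · obtain ⟨r1, r2, r3⟩ := p2 rfl
    obtain ⟨t1, t2, t3⟩ := q2 rfl
    obtain ⟨σ, hσ, g1, g2⟩ := K4.hom a' b' a b ha' hb' t3 ha hb r3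
    exact ⟨σ, hσ, g1, g2, by rw [← t1, ← r1, g1], by rw [← t2, ← r2, g2]⟩
  · obtain ⟨r1, r2, r3⟩ := p3 rfl
    obtain ⟨t1, t2, t3⟩ := q3 rfl
    obtain ⟨σ, hσ, g1, g2⟩ := K4.hom a' b' a b ha' hb' t3 ha hb r3
    exact ⟨σ, hσ, g1, g2, by rw [← t2, ← r2, g2], by rw [← t1, ← r1, g1]⟩

/-- the four edges of a cut -/
structure Four (src dst : E → V) (S : Finset V) (e1 e2 e3 e4 : E) : Prop where
  mem : ∀ e, e ∈ crs src dst S ↔ e = e1 ∨ e = e2 ∨ e = e3 ∨ e = e4
  n12 : e1 ≠ e2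
  n13 : e1 ≠ e3
  n14 : e1 ≠ e4
  n23 : e2 ≠ e3
  n24 : e2 ≠ e4
  n34 : e3 ≠ e4

variable {src dst : E → V} {S : Finset V} {e1 e2 e3 e4 : E}

theorem Four.eq (h : Four src dst S e1 e2 e3 e4) : crs src dst S = {e1, e2, e3, e4} := by
  ext e
  rw [h.mem]
  simp only [mem_insert, mem_singleton]

theorem Four.m1 (h : Four src dst S e1 e2 e3 e4) : e1 ∈ crs src dst S := (h.mem _).mpr (by tauto)
theorem Four.m2 (h : Four src dst S e1 e2 e3 e4) : e2 ∈ crs src dst S := (h.mem _).mpr (by tauto)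
theorem Four.m3 (h : Four src dst S e1 e2 e3 e4) : e3 ∈ crs src dst S := (h.mem _).mpr (by tauto)
theorem Four.m4 (h : Four src dst S e1 e2 e3 e4) : e4 ∈ crs src dst S := (h.mem _).mpr (by tauto)

theorem Four.sum (h : Four src dst S e1 e2 e3 e4) {M : Type} [AddCommMonoid M] (f : E → M) :
    ∑ e ∈ crs src dst S, f e = f e1 + (f e2 + (f e3 + f e4)) := by
  rw [h.eq, sum_insert, sum_insert, sum_insert, sum_singleton]
  · simpa using h.n34
  · simpa using ⟨h.n23, h.n24⟩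
  · simpa using ⟨h.n12, h.n13, h.n14⟩

theorem Four.card_filter (h : Four src dst S e1 e2 e3 e4) (p : E → Prop) [DecidablePred p] :
    ((crs src dst S).filter p).card = (if p e1 then 1 else 0) + ((if p e2 then 1 else 0) +
      ((if p e3 then 1 else 0) + (if p e4 then 1 else 0))) := by
  rw [Finset.card_filter, h.sum]

theorem Four.compl (h : Four src dst S e1 e2 e3 e4) : Four src dst Sᶜ e1 e2 e3 e4 :=
  ⟨fun e => by rw [crs_compl]; exact h.mem e, h.n12, h.n13, h.n14, h.n23, h.n24, h.n34⟩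

/-- the type `i` is realized on the side `S` -/
def T (src dst : E → V) (S : Finset V) (e1 e2 e3 e4 : E) (i : Fin 4) : Prop :=
  ∃ f, Sf src dst S f ∧ Pat i (f e1) (f e2) (f e3) (f e4)

theorem T_ex (h : Four src dst S e1 e2 e3 e4) {f : E → K4} (hf : Sf src dst S f) :
    ∃ i, T src dst S e1 e2 e3 e4 i := by
  have h1 := sum_cut hf.1
  rw [h.sum] at h1
  obtain ⟨i, hi⟩ := pat_ex _ _ _ _ (hf.crs_ne h.m1) (hf.crs_ne h.m2) (hf.crs_ne h.m3)
    (hf.crs_ne h.m4) h1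
  exact ⟨i, f, hf, hi⟩

/-- the two sides realize different types -/
theorem T_disj (hM : MinCx src dst) (h : Four src dst S e1 e2 e3 e4) {i : Fin 4}
    (h1 : T src dst S e1 e2 e3 e4 i) (h2 : T src dst Sᶜ e1 e2 e3 e4 i) : False := by
  obtain ⟨f, hf, pf⟩ := h1
  obtain ⟨g, hg, pg⟩ := h2
  have hc := h.compl
  obtain ⟨σ, hσ, g1, g2, g3, g4⟩ := pat_hom i _ _ _ _ _ _ _ _ (hf.crs_ne h.m1) (hf.crs_ne h.m2)
    (hf.crs_ne h.m3) (hg.crs_ne hc.m1) (hg.crs_ne hc.m2) (hg.crs_ne hc.m3) pf pg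
  refine hM.nf (glue (Y := S) (f1 := f) (f2 := g) σ hσ hf.1 (fun v hv => hg.1 v (mem_compl.mpr hv))
    hf.2 (fun e h5 _ => hg.2 e (Or.inl (mem_compl.mpr h5))) (fun e he => ?_))
  rcases (h.mem e).mp he with rfl | rfl | rfl | rfl
  · exact g1.symm
  · exact g2.symm
  · exact g3.symm
  · exact g4.symm

/-- another end in the component of the first one -/
theorem other (h : Four src dst S e1 e2 e3 e4) {f : E → K4} (hf : Sf src dst S f) {c : K4}
    (hc : c ≠ 0) (hcut : ∀ e ∈ crs src dst S, f e ≠ c) :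
    Even (1 + ((if xe src dst S e2 ∈ Kc src dst S f c (xe src dst S e1) then 1 else 0) +
      ((if xe src dst S e3 ∈ Kc src dst S f c (xe src dst S e1) then 1 else 0) +
      (if xe src dst S e4 ∈ Kc src dst S f c (xe src dst S e1) then 1 else 0)))) := by
  have h1 := Kc_even hc hf hcut (xe src dst S e1)
  rw [h.card_filter] at h1
  have h2 : xe src dst S e1 ∈ Kc src dst S f c (xe src dst S e1) :=
    mem_Kc.mpr ⟨xe_mem h.m1, Rl.refl _ _ _ _⟩
  rw [if_pos h2] at h1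
  exact h1

theorem T_step (h : Four src dst S e1 e2 e3 e4) {f : E → K4} (hf : Sf src dst S f) {i : Fin 4}
    (hi : i ≠ 0) (hp : Pat i (f e1) (f e2) (f e3) (f e4)) :
    ∃ j, j ≠ i ∧ T src dst S e1 e2 e3 e4 j := by
  have z1 := hf.crs_ne h.m1
  have z2 := hf.crs_ne h.m2
  have z3 := hf.crs_ne h.m3
  have z4 := hf.crs_ne h.m4
  have hz : ∀ (i : Fin 4) (a b c d : K4), i ≠ 0 → a ≠ 0 → b ≠ 0 → c ≠ 0 → d ≠ 0 →
      Pat i a b c d → ∃ z : K4, z ≠ 0 ∧ a ≠ z ∧ b ≠ z ∧ c ≠ z ∧ d ≠ z := by decide +kernel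
  obtain ⟨z, hz0, w1, w2, w3, w4⟩ := hz i _ _ _ _ hi z1 z2 z3 z4 hp
  have hcut : ∀ e ∈ crs src dst S, f e ≠ z := by
    intro e he
    rcases (h.mem e).mp he with rfl | rfl | rfl | rfl
    · exact w1
    · exact w2
    · exact w3
    · exact w4
  have hev := other h hf hz0 hcut
  obtain ⟨s1, s2, s3⟩ := pat_swap i _ _ _ _ z w1 w2 w3 w4 hz0 z1 z2 z3 z4 hp
  by_cases k2 : xe src dst S e2 ∈ Kc src dst S f z (xe src dst S e1)
  · obtain ⟨g, hg, a1, a2, a3⟩ := swap hf h.m1 h.m2 h.n12 w1 w2 (mem_Kc.mp k2).2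
    obtain ⟨j, hj, hj2⟩ := s1
    refine ⟨j, hj, g, hg, ?_⟩
    rw [a1, a2, a3 _ h.m3 h.n13.symm h.n23.symm, a3 _ h.m4 h.n14.symm h.n24.symm]
    exact hj2
  · by_cases k3 : xe src dst S e3 ∈ Kc src dst S f z (xe src dst S e1)
    · obtain ⟨g, hg, a1, a2, a3⟩ := swap hf h.m1 h.m3 h.n13 w1 w3 (mem_Kc.mp k3).2
      obtain ⟨j, hj, hj2⟩ := s2
      refine ⟨j, hj, g, hg, ?_⟩
      rw [a1, a2, a3 _ h.m2 h.n12.symm h.n23, a3 _ h.m4 h.n14.symm h.n34.symm]
      exact hj2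
    · by_cases k4 : xe src dst S e4 ∈ Kc src dst S f z (xe src dst S e1)
      · obtain ⟨g, hg, a1, a2, a3⟩ := swap hf h.m1 h.m4 h.n14 w1 w4 (mem_Kc.mp k4).2
        obtain ⟨j, hj, hj2⟩ := s3
        refine ⟨j, hj, g, hg, ?_⟩
        rw [a1, a2, a3 _ h.m2 h.n12.symm h.n24, a3 _ h.m3 h.n13.symm h.n34]
        exact hj2
      · rw [if_neg k2, if_neg k3, if_neg k4] at hev
        exact absurd hev (by decide)

theorem crs_ge3 (hM : MinCx src dst) (W : Finset V) :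
    (crs src dst W).card = 0 ∨ 3 ≤ (crs src dst W).card := by
  by_cases h : (crs src dst W).card = 0
  · exact Or.inl h
  · right
    obtain ⟨e, he⟩ : (crs src dst W).Nonempty := card_pos.mp (by omega)
    rw [mem_crs] at he
    have hne : src e ≠ dst e := fun h5 => he (by rw [h5])
    by_cases h1 : src e ∈ W
    · exact cut3 hM h1 (show dst e ∉ W by tauto) ⟨e, hne, Or.inl rfl⟩ ⟨e, hne, Or.inr rfl⟩
    · exact cut3 hM (show dst e ∈ W by tauto) h1 ⟨e, hne, Or.inr rfl⟩ ⟨e, hne, Or.inl rfl⟩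

theorem xe_cross {e : E} (he : e ∈ crs src dst S) (Y : Finset V) :
    e ∈ crs src dst Y ↔ ¬ (xe src dst S e ∈ Y ↔ xe src dst Sᶜ e ∈ Y) := by
  rw [mem_crs] at he ⊢
  unfold xe
  by_cases h1 : src e ∈ S
  · have h2 : src e ∉ Sᶜ := by rw [mem_compl]; tauto
    rw [if_pos h1, if_neg h2]
  · have h2 : src e ∈ Sᶜ := by rw [mem_compl]; tauto
    rw [if_neg h1, if_pos h2]
    tauto

/-- the minor in which the side `S` is replaced by two edges has no bridge -/
theorem two_br (hM : MinCx src dst) (h : Four src dst S e1 e2 e3 e4) {K K' : Finset V}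
    (hK : Conn src dst K) (hK' : Conn src dst K') (k1 : xe src dst S e1 ∈ K)
    (k2 : xe src dst S e2 ∈ K) (k3 : xe src dst S e3 ∈ K') (k4 : xe src dst S e4 ∈ K')
    {x y u v w : V} (hx : x ∈ S) (hy : y ∈ S) (hxy : x ≠ y) (nx : Nis src dst x)
    (ny : Nis src dst y) (hu : u ∉ S) (hv : v ∉ S) (hw : w ∉ S) (huv : u ≠ v) (huw : u ≠ w)
    (hvw : v ≠ w) (nu : Nis src dst u) (nv : Nis src dst v) (nw : Nis src dst w) :
    Br src dst
      (univ.filter (fun e => (src e ∈ S ∧ dst e ∈ S) ∧ ¬ (src e ∈ K ∧ dst e ∈ K) ∧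
        ¬ (src e ∈ K' ∧ dst e ∈ K')))
      (univ.filter (fun e => (src e ∈ K ∧ dst e ∈ K) ∨ (src e ∈ K' ∧ dst e ∈ K'))) := by
  classical
  set D := univ.filter (fun e => (src e ∈ S ∧ dst e ∈ S) ∧ ¬ (src e ∈ K ∧ dst e ∈ K) ∧
        ¬ (src e ∈ K' ∧ dst e ∈ K')) with hD
  set C := univ.filter (fun e => (src e ∈ K ∧ dst e ∈ K) ∨ (src e ∈ K' ∧ dst e ∈ K')) with hC
  have mD : ∀ e, e ∈ D ↔ (src e ∈ S ∧ dst e ∈ S) ∧ ¬ (src e ∈ K ∧ dst e ∈ K) ∧
        ¬ (src e ∈ K' ∧ dst e ∈ K') := by intro e; rw [hD]; simp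
  have mC : ∀ e, e ∈ C ↔ (src e ∈ K ∧ dst e ∈ K) ∨ (src e ∈ K' ∧ dst e ∈ K') := by
    intro e; rw [hC]; simp
  intro Y hYC hcard
  have side : ∀ L : Finset V, Conn src dst L → (∀ e, src e ∈ L → dst e ∈ L → e ∈ C) →
      ∀ p ∈ L, ∀ q ∈ L, (p ∈ Y ↔ q ∈ Y) := by
    intro L hL hLC p hp q hq
    refine hL Y (fun e h1 h2 => ?_) p hp q hq
    have h3 : e ∉ crs src dst Y := fun h4 => disjoint_left.mp hYC h4 (hLC e h1 h2)
    rw [mem_crs, not_not] at h3
    exact h3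
  have s12 := side K hK (fun e h1 h2 => (mC e).mpr (Or.inl ⟨h1, h2⟩)) _ k1 _ k2
  have s34 := side K' hK' (fun e h1 h2 => (mC e).mpr (Or.inr ⟨h1, h2⟩)) _ k3 _ k4
  set A := (crs src dst Y).filter (fun e => src e ∉ S ∧ dst e ∉ S) with hA
  have mA : ∀ e, e ∈ A ↔ e ∈ crs src dst Y ∧ src e ∉ S ∧ dst e ∉ S := by
    intro e; rw [hA, mem_filter]
  -- the three cuts
  have c1 : crs src dst Y \ D = A ∪ (crs src dst S).filter (fun e => e ∈ crs src dst Y) := by
    ext e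
    rw [mem_sdiff, mD, mem_union, mA, mem_filter]
    constructor
    · rintro ⟨h1, h2⟩
      by_cases h3 : e ∈ crs src dst S
      · exact Or.inr ⟨h3, h1⟩
      · left
        have h4 : e ∉ C := fun h5 => disjoint_left.mp hYC h1 h5
        rw [mC] at h4
        rw [mem_crs] at h3
        refine ⟨h1, ?_⟩
        tauto
    · rintro (⟨h1, h2, h3⟩ | ⟨h1, h2⟩)
      · exact ⟨h1, fun h4 => h2 h4.1.1⟩
      · refine ⟨h2, fun h4 => ?_⟩
        rw [mem_crs] at h1
        tauto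
  have d1 : Disjoint A ((crs src dst S).filter (fun e => e ∈ crs src dst Y)) := by
    rw [disjoint_left]
    intro e h1 h2
    rw [mA] at h1
    rw [mem_filter, mem_crs] at h2
    tauto
  have c2 : crs src dst (Y \ S) = A ∪ (crs src dst S).filter (fun e => xe src dst Sᶜ e ∈ Y) := by
    ext e
    rw [mem_union, mA, mem_filter, mem_crs, mem_crs, mem_crs, mem_sdiff, mem_sdiff]
    unfold xe
    by_cases a1 : src e ∈ S <;> by_cases a2 : dst e ∈ S <;> by_cases a3 : src e ∈ Y <;>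
      by_cases a4 : dst e ∈ Y <;> simp [a1, a2, a3, a4]
  have d2 : Disjoint A ((crs src dst S).filter (fun e => xe src dst Sᶜ e ∈ Y)) := by
    rw [disjoint_left]
    intro e h1 h2
    rw [mA] at h1
    rw [mem_filter, mem_crs] at h2
    tauto
  have c3 : crs src dst (Y ∪ S)ᶜ =
      A ∪ (crs src dst S).filter (fun e => ¬ xe src dst Sᶜ e ∈ Y) := by
    ext e
    rw [mem_union, mA, mem_filter, mem_crs, mem_crs, mem_crs, mem_compl, mem_compl, mem_union,
      mem_union]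
    unfold xe
    by_cases a1 : src e ∈ S <;> by_cases a2 : dst e ∈ S <;> by_cases a3 : src e ∈ Y <;>
      by_cases a4 : dst e ∈ Y <;> simp [a1, a2, a3, a4]
  have d3 : Disjoint A ((crs src dst S).filter (fun e => ¬ xe src dst Sᶜ e ∈ Y)) := by
    rw [disjoint_left]
    intro e h1 h2
    rw [mA] at h1
    rw [mem_filter, mem_crs] at h2
    tauto
  have q1 := hcard
  rw [c1, card_union_of_disjoint d1, h.card_filter] at q1
  have q2 := crs_ge3 hM (Y \ S)
  have q2' : (crs src dst (Y \ S)).card = A.card +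
      ((crs src dst S).filter (fun e => xe src dst Sᶜ e ∈ Y)).card := by
    rw [c2, card_union_of_disjoint d2]
  rw [h.card_filter] at q2'
  have q3 := crs_ge3 hM (Y ∪ S)ᶜ
  have q3' : (crs src dst (Y ∪ S)ᶜ).card = A.card +
      ((crs src dst S).filter (fun e => ¬ xe src dst Sᶜ e ∈ Y)).card := by
    rw [c3, card_union_of_disjoint d3]
  rw [h.card_filter] at q3'
  simp only [xe_cross h.m1, xe_cross h.m2, xe_cross h.m3, xe_cross h.m4] at q1
  have fin : ¬ ((crs src dst (Y \ S)).card = 3 ∧ (crs src dst (Y ∪ S)ᶜ).card = 3) := by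
    rintro ⟨f1, f2⟩
    have hxS : x ∉ Y \ S := fun h5 => (mem_sdiff.mp h5).2 hx
    have hyS : y ∉ Y \ S := fun h5 => (mem_sdiff.mp h5).2 hy
    have hxS' : x ∉ (Y ∪ S)ᶜ := fun h5 => (mem_compl.mp h5) (mem_union_right _ hx)
    have hyS' : y ∉ (Y ∪ S)ᶜ := fun h5 => (mem_compl.mp h5) (mem_union_right _ hy)
    have two : ∀ p q : V, p ≠ q → p ∉ S → q ∉ S → Nis src dst p → Nis src dst q →
        (p ∈ Y ↔ q ∈ Y) → False := by
      intro p q hpq hp hq np nq hpq'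
      by_cases h5 : p ∈ Y
      · have := cut4 hM (mem_sdiff.mpr ⟨h5, hp⟩) (mem_sdiff.mpr ⟨hpq'.mp h5, hq⟩) hpq hxS hyS hxy
          np nq nx ny
        omega
      · have h6 : q ∉ Y := fun h7 => h5 (hpq'.mpr h7)
        have m1 : p ∈ (Y ∪ S)ᶜ := by rw [mem_compl, mem_union]; tauto
        have m2 : q ∈ (Y ∪ S)ᶜ := by rw [mem_compl, mem_union]; tauto
        have := cut4 hM m1 m2 hpq hxS' hyS' hxy np nq nx ny
        omega
    by_cases g1 : u ∈ Y ↔ v ∈ Y
    · exact two u v huv hu hv nu nv g1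
    · by_cases g2 : u ∈ Y ↔ w ∈ Y
      · exact two u w huw hu hw nu nw g2
      · exact two v w hvw hv hw nv nw (by tauto)
  rw [q2', q3'] at fin
  rw [q2'] at q2
  rw [q3'] at q3
  generalize A.card = a at q1 q2 q3 fin
  by_cases b1 : xe src dst S e1 ∈ Y <;> by_cases b3 : xe src dst S e3 ∈ Y <;>
    by_cases t1 : xe src dst Sᶜ e1 ∈ Y <;> by_cases t2 : xe src dst Sᶜ e2 ∈ Y <;>
    by_cases t3 : xe src dst Sᶜ e3 ∈ Y <;> by_cases t4 : xe src dst Sᶜ e4 ∈ Y <;>
    simp only [b1, b3, t1, t2, t3, t4, ← s12, ← s34, iff_true, iff_false, not_true_eq_false,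
      not_false_eq_true, if_true, if_false] at q1 q2 q3 fin <;> omega

/-- the case in which the component of the first end has exactly one other end -/
theorem noZero2 (hM : MinCx src dst) (h : Four src dst S e1 e2 e3 e4) {f : E → K4}
    (hf : Sf src dst S f) (f2 : f e2 = f e1) (f3 : f e3 = f e1) (f4 : f e4 = f e1) {z : K4}
    (hz : z ≠ 0) (hz1 : f e1 ≠ z)
    (k2 : xe src dst S e2 ∈ Kc src dst S f z (xe src dst S e1))
    (k3 : xe src dst S e3 ∉ Kc src dst S f z (xe src dst S e1))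
    (k4 : xe src dst S e4 ∉ Kc src dst S f z (xe src dst S e1))
    {x y u v w : V} (hx : x ∈ S) (hy : y ∈ S) (hxy : x ≠ y) (nx : Nis src dst x)
    (ny : Nis src dst y) (hu : u ∉ S) (hv : v ∉ S) (hw : w ∉ S) (huv : u ≠ v) (huw : u ≠ w)
    (hvw : v ≠ w) (nu : Nis src dst u) (nv : Nis src dst v) (nw : Nis src dst w)
    (hin : ∃ e, src e ≠ dst e ∧ src e ∈ S ∧ dst e ∈ S) : False := by
  classical
  have hcut : ∀ e ∈ crs src dst S, f e ≠ z := by
    intro e he
    rcases (h.mem e).mp he with rfl | rfl | rfl | rfl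
    · exact hz1
    · rw [f2]; exact hz1
    · rw [f3]; exact hz1
    · rw [f4]; exact hz1
  -- two types on the side `S`
  have T0 : T src dst S e1 e2 e3 e4 0 := ⟨f, hf, by
    rw [f2, f3, f4]
    have : ∀ a : K4, Pat 0 a a a a := by decide
    exact this _⟩
  have T1 : T src dst S e1 e2 e3 e4 1 := by
    obtain ⟨g, hg, a1, a2, a3⟩ := swap hf h.m1 h.m2 h.n12 hz1 (hcut _ h.m2) (mem_Kc.mp k2).2
    refine ⟨g, hg, ?_⟩
    rw [a1, a2, a3 _ h.m3 h.n13.symm h.n23.symm, a3 _ h.m4 h.n14.symm h.n24.symm, f2, f3, f4]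
    exact (pat_zero _ z hz).1
  have m1 : xe src dst S e1 ∈ Kc src dst S f z (xe src dst S e1) :=
    mem_Kc.mpr ⟨xe_mem h.m1, Rl.refl _ _ _ _⟩
  have m3 : xe src dst S e3 ∈ Kc src dst S f z (xe src dst S e3) :=
    mem_Kc.mpr ⟨xe_mem h.m3, Rl.refl _ _ _ _⟩
  have hdisj : ∀ p, p ∈ Kc src dst S f z (xe src dst S e1) →
      p ∉ Kc src dst S f z (xe src dst S e3) := by
    intro p hp hp'
    exact k3 (mem_Kc.mpr ⟨xe_mem h.m3, (mem_Kc.mp hp).2.trans (mem_Kc.mp hp').2.symm⟩)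
  have m4 : xe src dst S e4 ∈ Kc src dst S f z (xe src dst S e3) := by
    by_contra hno
    have h' : Four src dst S e3 e1 e2 e4 := ⟨fun e => by rw [h.mem e]; tauto, h.n13.symm,
      h.n23.symm, h.n34, h.n12, h.n14, h.n24⟩
    have hev := other h' hf hz hcut
    rw [if_neg (hdisj _ m1), if_neg (hdisj _ k2), if_neg hno] at hev
    exact absurd hev (by decide)
  set K := Kc src dst S f z (xe src dst S e1) with hKd
  set K' := Kc src dst S f z (xe src dst S e3) with hKd'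
  have hKS : ∀ p ∈ K, p ∈ S := fun p hp => (mem_Kc.mp hp).1
  have hKS' : ∀ p ∈ K', p ∈ S := fun p hp => (mem_Kc.mp hp).1
  obtain ⟨f', g0, g1, g2⟩ := hM.crit
    (univ.filter (fun e => (src e ∈ S ∧ dst e ∈ S) ∧ ¬ (src e ∈ K ∧ dst e ∈ K) ∧
        ¬ (src e ∈ K' ∧ dst e ∈ K')))
    (univ.filter (fun e => (src e ∈ K ∧ dst e ∈ K) ∨ (src e ∈ K' ∧ dst e ∈ K')))
    (by
      rw [disjoint_left]
      intro e h1 h2
      simp only [mem_filter, mem_univ, true_and] at h1 h2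
      tauto) (by
      obtain ⟨e, i1, i2, i3⟩ := hin
      refine ⟨e, ?_, i1⟩
      simp only [mem_union, mem_filter, mem_univ, true_and]
      tauto)
    (two_br hM h (Kc_conn hz (xe_mem h.m1)) (Kc_conn hz (xe_mem h.m3)) m1 k2 m3 m4 hx hy hxy nx ny
      hu hv hw huv huw hvw nu nv nw)
  simp only [mem_filter, mem_univ, true_and] at g1 g2
  have hsf : Sf src dst Sᶜ f' := by
    refine ⟨fun v _ => g0 v, fun e he => g2 e ?_ ?_⟩
    · rw [mem_compl, mem_compl] at he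
      tauto
    · rw [mem_compl, mem_compl] at he
      rintro (⟨i1, i2⟩ | ⟨i1, i2⟩)
      · have := hKS _ i1
        have := hKS _ i2
        tauto
      · have := hKS' _ i1
        have := hKS' _ i2
        tauto
  have pair : ∀ (L : Finset V) (a b c d : E), (∀ p ∈ L, p ∈ S) → Four src dst S a b c d →
      xe src dst S a ∈ L → xe src dst S b ∈ L → xe src dst S c ∉ L → xe src dst S d ∉ L →
      (∀ e, e ∈ crs src dst L → src e ∈ S → dst e ∈ S → f' e = 0) → f' a + f' b = 0 := by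
    intro L a b c d hL h4 ha hb hc hd hz'
    have e1 := sum_cut (src := src) (dst := dst) (f := f') (Y := L) (fun v _ => g0 v)
    have hcr : ∀ e ∈ crs src dst S, (e ∈ crs src dst L ↔ xe src dst S e ∈ L) := by
      intro e he
      rw [mem_crs] at he ⊢
      unfold xe
      by_cases i1 : src e ∈ S
      · rw [if_pos i1]
        have : dst e ∉ L := fun h5 => he ⟨fun _ => hL _ h5, fun _ => i1⟩
        tauto
      · rw [if_neg i1]
        have : src e ∉ L := fun h5 => i1 (hL _ h5)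
        tauto
    have e2 : ∑ e ∈ ({a, b} : Finset E), f' e = ∑ e ∈ crs src dst L, f' e := by
      refine sum_subset ?_ ?_
      · intro e he
        rw [mem_insert, mem_singleton] at he
        rcases he with rfl | rfl
        · exact (hcr _ h4.m1).mpr ha
        · exact (hcr _ h4.m2).mpr hb
      · intro e he hne
        rw [mem_insert, mem_singleton, not_or] at hne
        by_cases i1 : e ∈ crs src dst S
        · exfalso
          have i2 := (hcr e i1).mp he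
          rcases (h4.mem e).mp i1 with rfl | rfl | rfl | rfl
          · exact hne.1 rfl
          · exact hne.2 rfl
          · exact hc i2
          · exact hd i2
        · rw [mem_crs, not_not] at i1
          have i3 : src e ∈ S := by
            have i4 := he
            rw [mem_crs] at i4
            by_cases i5 : src e ∈ L
            · exact hL _ i5
            · have : dst e ∈ L := by tauto
              exact i1.mpr (hL _ this)
          exact hz' e he i3 (i1.mp i3)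
    rw [sum_pair h4.n12] at e2
    rw [e2, e1]
  have q1 : f' e1 + f' e2 = 0 := by
    refine pair K e1 e2 e3 e4 hKS h m1 k2 k3 k4 (fun e he i1 i2 => g1 e ⟨⟨i1, i2⟩, ?_, ?_⟩)
    · rw [mem_crs] at he; tauto
    · rintro ⟨i3, i4⟩
      rw [mem_crs] at he
      have := fun h5 => hdisj (src e) h5 i3
      have := fun h5 => hdisj (dst e) h5 i4
      tauto
  have q2 : f' e3 + f' e4 = 0 := by
    have h' : Four src dst S e3 e4 e1 e2 := ⟨fun e => by rw [h.mem e]; tauto, h.n34,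
      h.n13.symm, h.n23.symm, h.n14.symm, h.n24.symm, h.n12⟩
    refine pair K' e3 e4 e1 e2 hKS' h' m3 m4 (hdisj _ m1) (hdisj _ k2)
      (fun e he i1 i2 => g1 e ⟨⟨i1, i2⟩, ?_, ?_⟩)
    · rintro ⟨i3, i4⟩
      rw [mem_crs] at he
      have := hdisj (src e) i3
      have := hdisj (dst e) i4
      tauto
    · rw [mem_crs] at he; tauto
  have hfin : ∀ a b c d : K4, a + b = 0 → c + d = 0 → Pat 0 a b c d ∨ Pat 1 a b c d := by
    decide +kernel
  rcases hfin _ _ _ _ q1 q2 with hp | hp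
  · exact T_disj hM h T0 ⟨f', hsf, hp⟩
  · exact T_disj hM h T1 ⟨f', hsf, hp⟩

theorem noZero (hM : MinCx src dst) (h : Four src dst S e1 e2 e3 e4)
    {x y u v w : V} (hx : x ∈ S) (hy : y ∈ S) (hxy : x ≠ y) (nx : Nis src dst x)
    (ny : Nis src dst y) (hu : u ∉ S) (hv : v ∉ S) (hw : w ∉ S) (huv : u ≠ v) (huw : u ≠ w)
    (hvw : v ≠ w) (nu : Nis src dst u) (nv : Nis src dst v) (nw : Nis src dst w)
    (hin : ∃ e, src e ≠ dst e ∧ src e ∈ S ∧ dst e ∈ S)
    (hex : ∃ i, T src dst Sᶜ e1 e2 e3 e4 i) (hT : T src dst S e1 e2 e3 e4 0) : False := by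
  obtain ⟨f, hf, hp⟩ := hT
  obtain ⟨f2, f3, f4⟩ := hp.1 rfl
  have z1 := hf.crs_ne h.m1
  have hzex : ∀ a : K4, a ≠ 0 → ∃ z : K4, z ≠ 0 ∧ a ≠ z := by decide
  obtain ⟨z, hz, hz1⟩ := hzex _ z1
  have hcut : ∀ e ∈ crs src dst S, f e ≠ z := by
    intro e he
    rcases (h.mem e).mp he with rfl | rfl | rfl | rfl
    · exact hz1
    · rw [← f2]; exact hz1
    · rw [← f3]; exact hz1
    · rw [← f4]; exact hz1
  have hev := other h hf hz hcut
  by_cases k2 : xe src dst S e2 ∈ Kc src dst S f z (xe src dst S e1) <;>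
  by_cases k3 : xe src dst S e3 ∈ Kc src dst S f z (xe src dst S e1) <;>
  by_cases k4 : xe src dst S e4 ∈ Kc src dst S f z (xe src dst S e1)
  · -- all types are realized
    have t1 : T src dst S e1 e2 e3 e4 1 := by
      obtain ⟨g, hg, a1, a2, a3⟩ := swap hf h.m1 h.m2 h.n12 hz1 (hcut _ h.m2) (mem_Kc.mp k2).2
      refine ⟨g, hg, ?_⟩
      rw [a1, a2, a3 _ h.m3 h.n13.symm h.n23.symm, a3 _ h.m4 h.n14.symm h.n24.symm, ← f2, ← f3,
        ← f4]
      exact (pat_zero _ z hz).1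
    have t2 : T src dst S e1 e2 e3 e4 2 := by
      obtain ⟨g, hg, a1, a2, a3⟩ := swap hf h.m1 h.m3 h.n13 hz1 (hcut _ h.m3) (mem_Kc.mp k3).2
      refine ⟨g, hg, ?_⟩
      rw [a1, a2, a3 _ h.m2 h.n12.symm h.n23, a3 _ h.m4 h.n14.symm h.n34.symm, ← f2, ← f3, ← f4]
      exact (pat_zero _ z hz).2.1
    have t3 : T src dst S e1 e2 e3 e4 3 := by
      obtain ⟨g, hg, a1, a2, a3⟩ := swap hf h.m1 h.m4 h.n14 hz1 (hcut _ h.m4) (mem_Kc.mp k4).2
      refine ⟨g, hg, ?_⟩
      rw [a1, a2, a3 _ h.m2 h.n12.symm h.n24, a3 _ h.m3 h.n13.symm h.n34, ← f2, ← f3, ← f4]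
      exact (pat_zero _ z hz).2.2
    obtain ⟨i, hi⟩ := hex
    have h4 : ∀ i : Fin 4, i = 0 ∨ i = 1 ∨ i = 2 ∨ i = 3 := by decide
    rcases h4 i with rfl | rfl | rfl | rfl
    · exact T_disj hM h ⟨f, hf, hp⟩ hi
    · exact T_disj hM h t1 hi
    · exact T_disj hM h t2 hi
    · exact T_disj hM h t3 hi
  · simp only [k2, k3, k4, if_true, if_false] at hev; exact absurd hev (by decide)
  · simp only [k2, k3, k4, if_true, if_false] at hev; exact absurd hev (by decide)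
  · exact noZero2 hM h hf f2.symm f3.symm f4.symm hz hz1 k2 k3 k4 hx hy hxy nx ny hu hv hw huv huw
      hvw nu nv nw hin
  · simp only [k2, k3, k4, if_true, if_false] at hev; exact absurd hev (by decide)
  · have h' : Four src dst S e1 e3 e2 e4 := ⟨fun e => by rw [h.mem e]; tauto, h.n13, h.n12, h.n14,
      h.n23.symm, h.n34, h.n24⟩
    exact noZero2 hM h' hf f3.symm f2.symm f4.symm hz hz1 k3 k2 k4 hx hy hxy nx ny hu hv hw huv huw
      hvw nu nv nw hin
  · have h' : Four src dst S e1 e4 e2 e3 := ⟨fun e => by rw [h.mem e]; tauto, h.n14, h.n12, h.n13,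
      h.n24.symm, h.n34.symm, h.n23⟩
    exact noZero2 hM h' hf f4.symm f2.symm f3.symm hz hz1 k4 k2 k3 hx hy hxy nx ny hu hv hw huv huw
      hvw nu nv nw hin
  · simp only [k2, k3, k4, if_true, if_false] at hev; exact absurd hev (by decide)

/-- two vertices of a small side are joined inside -/
theorem inside (hM : MinCx src dst) (hc : (crs src dst S).card ≤ 4) {x y z : V} (hx : x ∈ S)
    (hy : y ∈ S) (hxy : x ≠ y) (nx : Nis src dst x) (ny : Nis src dst y) :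
    ∃ e, src e ≠ dst e ∧ src e ∈ S ∧ dst e ∈ S := by
  by_contra hno
  push Not at hno
  have h1 : 3 ≤ (crs src dst {x}).card :=
    cut3 hM (x := x) (y := y) (mem_singleton_self _) (by simpa using hxy.symm) nx ny
  have h2 : 3 ≤ (crs src dst {y}).card :=
    cut3 hM (x := y) (y := x) (mem_singleton_self _) (by simpa using hxy) ny nx
  have hs : ∀ p ∈ S, crs src dst {p} ⊆ crs src dst S := by
    intro p hp e he
    rw [mem_crs, mem_singleton, mem_singleton] at he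
    have hne : src e ≠ dst e := fun h5 => he (by rw [h5])
    have := hno e hne
    rw [mem_crs]
    by_cases h5 : src e = p
    · have h6 : src e ∈ S := h5 ▸ hp
      have := this h6
      tauto
    · have h6 : dst e = p := by tauto
      have h7 : dst e ∈ S := h6 ▸ hp
      tauto
  have hd : Disjoint (crs src dst {x}) (crs src dst {y}) := by
    rw [disjoint_left]
    intro e h3 h4
    rw [mem_crs, mem_singleton, mem_singleton] at h3 h4
    have hne : src e ≠ dst e := fun h5 => h3 (by rw [h5])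
    have h5 := hno e hne
    by_cases h6 : src e = x
    · have h7 : src e ≠ y := fun h8 => hxy (h6.symm.trans h8)
      have h8 : dst e = y := by tauto
      exact h5 (h6 ▸ hx) (h8 ▸ hy)
    · have h7 : dst e = x := by tauto
      have h9 : dst e ≠ y := fun h8 => hxy (h7.symm.trans h8)
      have h8 : src e = y := by tauto
      exact h5 (h8 ▸ hy) (h7 ▸ hx)
  have h5 : (crs src dst {x} ∪ crs src dst {y}).card ≤ (crs src dst S).card :=
    card_le_card (union_subset (hs x hx) (hs y hy))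
  rw [card_union_of_disjoint hd] at h5
  omega

/-- **In a minimal counterexample every edge cut with at least three vertices on both sides has at
least five edges.** -/
theorem cut5 (hM : MinCx src dst) {x y z u v w : V} (hx : x ∈ S) (hy : y ∈ S) (hz : z ∈ S)
    (hxy : x ≠ y) (hxz : x ≠ z) (hyz : y ≠ z) (nx : Nis src dst x) (ny : Nis src dst y)
    (nz : Nis src dst z) (hu : u ∉ S) (hv : v ∉ S) (hw : w ∉ S) (huv : u ≠ v) (huw : u ≠ w)
    (hvw : v ≠ w) (nu : Nis src dst u) (nv : Nis src dst v) (nw : Nis src dst w) :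
    5 ≤ (crs src dst S).card := by
  classical
  by_contra hlt
  have h4 : (crs src dst S).card = 4 := by
    have := cut4 hM hx hy hxy hu hv huv nx ny nu nv
    omega
  obtain ⟨e1, e2, e3, e4, n12, n13, n14, n23, n24, n34, he⟩ := card_eq_four.mp h4
  have hF : Four src dst S e1 e2 e3 e4 := ⟨fun e => by
    rw [he]; simp only [mem_insert, mem_singleton], n12, n13, n14, n23, n24, n34⟩
  have hcc : (crs src dst Sᶜ).card ≤ 4 := by rw [crs_compl]; omega
  have hu' : u ∈ Sᶜ := mem_compl.mpr hu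
  have hv' : v ∈ Sᶜ := mem_compl.mpr hv
  have hx' : x ∉ Sᶜ := by simpa using hx
  have hy' : y ∉ Sᶜ := by simpa using hy
  have hz' : z ∉ Sᶜ := by simpa using hz
  have in1 := inside (z := z) hM (S := S) (by omega) hx hy hxy nx ny
  have in2 := inside (z := z) hM (S := Sᶜ) hcc hu' hv' huv nu nv
  obtain ⟨f1, f2, a1, a2, a3, a4⟩ := MinCx.sides hM S in1 (by
    obtain ⟨e, i1, i2, i3⟩ := in2
    exact ⟨e, i1, mem_compl.mp i2, mem_compl.mp i3⟩)
  have s1 : Sf src dst S f1 := ⟨fun v _ => a1 v, a3⟩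
  have s2 : Sf src dst Sᶜ f2 := ⟨fun v _ => a2 v, fun e he => a4 e (by
    rw [mem_compl, mem_compl] at he; exact he)⟩
  have hC := hF.compl
  have ex1 := T_ex hF s1
  have ex2 := T_ex hC s2
  have z1 : ¬ T src dst S e1 e2 e3 e4 0 := fun h5 =>
    noZero hM hF hx hy hxy nx ny hu hv hw huv huw hvw nu nv nw in1 ex2 h5
  have z2 : ¬ T src dst Sᶜ e1 e2 e3 e4 0 := fun h5 =>
    noZero hM hC hu' hv' huv nu nv hx' hy' hz' hxy hxz hyz nx ny nz in2
      (by rw [compl_compl]; exact ex1) h5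
  have two : ∀ (W : Finset V), Four src dst W e1 e2 e3 e4 → ¬ T src dst W e1 e2 e3 e4 0 →
      (∃ i, T src dst W e1 e2 e3 e4 i) → ∃ i j : Fin 4, i ≠ j ∧ i ≠ 0 ∧ j ≠ 0 ∧
        T src dst W e1 e2 e3 e4 i ∧ T src dst W e1 e2 e3 e4 j := by
    intro W hW h0 ⟨i, hi⟩
    have hi0 : i ≠ 0 := fun h5 => h0 (h5 ▸ hi)
    obtain ⟨f, hf, hp⟩ := hi
    obtain ⟨j, hj, hj2⟩ := T_step hW hf hi0 hp
    exact ⟨i, j, hj.symm, hi0, fun h5 => h0 (h5 ▸ hj2), ⟨f, hf, hp⟩, hj2⟩
  obtain ⟨i, j, hij, i0, j0, ti, tj⟩ := two S hF z1 ex1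
  obtain ⟨k, l, hkl, k0, l0, tk, tl⟩ := two Sᶜ hC z2 ex2
  have hpig : ∀ i j k l : Fin 4, i ≠ j → i ≠ 0 → j ≠ 0 → k ≠ l → k ≠ 0 → l ≠ 0 →
      i = k ∨ i = l ∨ j = k ∨ j = l := by decide
  rcases hpig i j k l hij i0 j0 hkl k0 l0 with rfl | rfl | rfl | rfl
  · exact T_disj hM hF ti tk
  · exact T_disj hM hF ti tl
  · exact T_disj hM hF tj tk
  · exact T_disj hM hF tj tl

end Pool.Agent.N399.TB
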