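import Pool.Agent.N399.TB.Tree
import Pool.Agent.N399.TB.Sep4
import Pool.Agent.TH676.T4.Pet

set_option autoImplicit false
set_option linter.unusedSectionVars false

/-!
# Branch decompositions of width four
-/

namespace Pool.Agent.N399.TB

open Finset Pool.Agent.TH462.T4 Pool.Agent.TH676.T4 Pool.Agent.TH497.T4

variable {V E : Type} [Fintype V] [DecidableEq V] [Fintype E] [DecidableEq E]

/-- the vertices which are incident with edges on both sides of the edge `ab` of the tree -/
def mid {ι : Type} (src dst : E → V) (T : SimpleGraph ι) (leaf : E → ι) (a b : ι) : Set V :=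
  {v | (∃ e, (src e = v ∨ dst e = v) ∧ leaf e ∈ Side T a b) ∧
    ∃ e, (src e = v ∨ dst e = v) ∧ leaf e ∈ Side T b a}

structure BD {ι : Type} (src dst : E → V) (T : SimpleGraph ι) (leaf : E → ι) : Prop where
  tree : T.IsTree
  deg : ∀ i, (T.neighborSet i).ncard ≤ 3
  inj : Function.Injective leaf
  lf : ∀ e, (T.neighborSet (leaf e)).ncard ≤ 1
  wd : ∀ a b, T.Adj a b → (mid src dst T leaf a b).ncard ≤ 4

def HasBD (src dst : E → V) : Prop :=
  ∃ (ι : Type) (_ : Fintype ι) (T : SimpleGraph ι) (leaf : E → ι), BD src dst T leaf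

theorem mc_bd : MC (V := V) (E := E) HasBD where
  del := by
    rintro src dst e ⟨ι, _, T, leaf, h⟩ hne
    refine ⟨ι, inferInstance, T, leaf, h.tree, h.deg, h.inj, h.lf, fun a b hab => ?_⟩
    refine (Set.ncard_le_ncard ?_ (Set.toFinite _)).trans (h.wd a b hab)
    have key : ∀ d v, (src d = v ∨ TH462.T4.lp src dst {e} d = v) → (src d = v ∨ dst d = v) := by
      intro d v hd
      unfold TH462.T4.lp at hd
      split_ifs at hd with h1
      · exact Or.inl (hd.elim id id)
      · exact hd
    rintro v ⟨⟨d, h1, h2⟩, d', h3, h4⟩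
    exact ⟨⟨d, key d v h1, h2⟩, d', key d' v h3, h4⟩
  con := by
    rintro src dst e ⟨ι, _, T, leaf, h⟩ hne
    refine ⟨ι, inferInstance, T, leaf, h.tree, h.deg, h.inj, h.lf, fun a b hab => ?_⟩
    refine le_trans ?_ (h.wd a b hab)
    refine le_trans (Set.ncard_le_ncard ?_ (Set.toFinite _))
      (Set.ncard_image_le (f := ctr (src e) (dst e)) (s := mid src dst T leaf a b)
        (Set.toFinite _))
    rintro v ⟨⟨d, h1, h2⟩, d', h3, h4⟩
    have k1 : ∃ y, (src d = y ∨ dst d = y) ∧ ctr (src e) (dst e) y = v := by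
      rcases h1 with h1 | h1
      · exact ⟨_, Or.inl rfl, h1⟩
      · exact ⟨_, Or.inr rfl, h1⟩
    have k2 : ∃ y, (src d' = y ∨ dst d' = y) ∧ ctr (src e) (dst e) y = v := by
      rcases h3 with h3 | h3
      · exact ⟨_, Or.inl rfl, h3⟩
      · exact ⟨_, Or.inr rfl, h3⟩
    obtain ⟨y, hy, hyv⟩ := k1
    obtain ⟨y', hy', hyv'⟩ := k2
    by_cases hyy : y = y'
    · subst hyy
      exact ⟨y, ⟨⟨d, hy, h2⟩, d', hy', h4⟩, hyv⟩
    · -- then `y` and `y'` are the ends of `e`
      have hends : ∀ z z' : V, z ≠ z' → ctr (src e) (dst e) z = v → ctr (src e) (dst e) z' = v →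
          (src e = z ∨ dst e = z) := by
        intro z z' hzz h5 h6
        unfold ctr at h5 h6
        by_cases h7 : z = dst e
        · exact Or.inr h7.symm
        · rw [if_neg h7] at h5
          by_cases h8 : z' = dst e
          · rw [if_pos h8] at h6
            exact Or.inl (h6.trans h5.symm)
          · rw [if_neg h8] at h6
            exact absurd (h5.trans h6.symm) hzz
      have e1 := hends y y' hyy hyv hyv'
      have e2 := hends y' y (Ne.symm hyy) hyv' hyv
      rcases side_or h.tree (a := a) (b := b) (leaf e) with h5 | h5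
      · exact ⟨y', ⟨⟨e, e2, h5⟩, d', hy', h4⟩, hyv'⟩
      · exact ⟨y, ⟨⟨d, hy, h2⟩, e, e1, h5⟩, hyv⟩

open Classical in
theorem bd_false {src dst : E → V} (hM : MinCx src dst)
    (hn : 15 ≤ (univ.filter (fun v => Nis src dst v)).card) (hB : HasBD src dst) : False := by
  obtain ⟨ι, _, T, leaf, h⟩ := hB
  set N : Finset V := univ.filter (fun v => Nis src dst v) with hN
  set I : ι → ι → Finset V := fun a b =>
    univ.filter (fun x => ∀ e, (src e = x ∨ dst e = x) → leaf e ∈ Side T a b) with hI
  set Z : ι → ι → Finset V := fun a b => univ.filter (fun x => x ∈ mid src dst T leaf a b) with hZ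
  have memI : ∀ a b x, x ∈ I a b ↔ ∀ e, (src e = x ∨ dst e = x) → leaf e ∈ Side T a b := by
    intro a b x; simp [hI]
  have memZ : ∀ a b x, x ∈ Z a b ↔ x ∈ mid src dst T leaf a b := by
    intro a b x; simp [hZ]
  have cZ : ∀ a b, T.Adj a b → (Z a b).card ≤ 4 := by
    intro a b hab
    have h1 := h.wd a b hab
    rw [Set.ncard_eq_toFinset_card'] at h1
    refine le_trans (card_le_card ?_) h1
    intro x hx
    rw [Set.mem_toFinset]
    exact (memZ a b x).mp hx
  have hcl : ∀ a b, T.Adj a b → Closed src dst (Z a b) (I a b) := by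
    intro a b hab e he
    have h1 : leaf e ∈ Side T a b := by
      rcases he with h2 | h2
      · exact (memI a b _).mp h2 e (Or.inl rfl)
      · exact (memI a b _).mp h2 e (Or.inr rfl)
    have h2 : ∀ x, (src e = x ∨ dst e = x) → x ∈ I a b ∪ Z a b := by
      intro x hx
      by_cases h3 : x ∈ I a b
      · exact mem_union_left _ h3
      · rw [memI] at h3
        push Not at h3
        obtain ⟨d, hd, hd2⟩ := h3
        refine mem_union_right _ ((memZ a b x).mpr ⟨⟨e, hx, h1⟩, d, hd, ?_⟩)
        exact (side_or h.tree (leaf d)).resolve_left hd2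
    exact ⟨h2 _ (Or.inl rfl), h2 _ (Or.inr rfl)⟩
  have hdj : ∀ a b, T.Adj a b → Disjoint (I a b) (Z a b) := by
    intro a b hab
    rw [disjoint_left]
    intro x hx hz
    obtain ⟨-, d, hd, hd2⟩ := (memZ a b x).mp hz
    exact side_not h.tree hab ((memI a b x).mp hx d hd) hd2
  -- one of the two sides is small
  have hsm : ∀ a b, T.Adj a b → (I a b ∩ N).card ≤ 2 ∨ (I b a ∩ N).card ≤ 2 := by
    intro a b hab
    by_contra hno
    push Not at hno
    obtain ⟨x1, m1, x2, m2, x3, m3, n12, n13, n23⟩ := two_lt_card.mp hno.1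
    obtain ⟨y1, k1, y2, k2, y3, k3, l12, l13, l23⟩ := two_lt_card.mp hno.2
    have hy : ∀ y ∈ I b a ∩ N, y ∉ I a b ∧ y ∉ Z a b ∧ Nis src dst y := by
      intro y hy
      obtain ⟨h1, h2⟩ := mem_inter.mp hy
      have h3 := (mem_filter.mp h2).2
      obtain ⟨e, _, he⟩ := id h3
      refine ⟨fun h4 => ?_, fun h4 => ?_, h3⟩
      · exact side_not h.tree hab ((memI a b y).mp h4 e he) ((memI b a y).mp h1 e he)
      · obtain ⟨⟨d, hd, hd2⟩, -⟩ := (memZ a b y).mp h4
        exact side_not h.tree hab hd2 ((memI b a y).mp h1 d hd)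
    have hx : ∀ x ∈ I a b ∩ N, x ∈ I a b ∧ Nis src dst x := by
      intro x hx
      obtain ⟨h1, h2⟩ := mem_inter.mp hx
      exact ⟨h1, (mem_filter.mp h2).2⟩
    exact sep4 hM (hcl a b hab) (hdj a b hab) (cZ a b hab) (hx _ m1).1 (hx _ m2).1 (hx _ m3).1
      n12 n13 n23 (hx _ m1).2 (hx _ m2).2 (hx _ m3).2 (hy _ k1).1 (hy _ k1).2.1 (hy _ k2).1
      (hy _ k2).2.1 (hy _ k3).1 (hy _ k3).2.1 l12 l13 l23 (hy _ k1).2.2 (hy _ k2).2.2
      (hy _ k3).2.2
  obtain ⟨v, hv⟩ := tree_sink h.tree _ hsm
  set D : Finset ι := univ.filter (fun w => T.Adj v w) with hD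
  have memD : ∀ w, w ∈ D ↔ T.Adj v w := by intro w; simp [hD]
  have cD : D.card ≤ 3 := by
    have h1 := h.deg v
    rw [Set.ncard_eq_toFinset_card'] at h1
    refine le_trans (card_le_card ?_) h1
    intro x hx
    rw [Set.mem_toFinset]
    exact (memD x).mp hx
  -- every vertex has an edge whose leaf is not `v`
  have hx1 : ∀ x ∈ N, ∃ e, (src e = x ∨ dst e = x) ∧ leaf e ≠ v := by
    intro x hx
    have nx := (mem_filter.mp hx).2
    obtain ⟨e, hne, he⟩ := id nx
    by_contra hno
    push Not at hno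
    have h1 : (crs src dst {x}).card ≠ 1 := by
      have := hM.br {x} (disjoint_empty_right _)
      simpa using this
    apply h1
    rw [card_eq_one]
    refine ⟨e, ?_⟩
    ext d
    rw [mem_crs, mem_singleton, mem_singleton, mem_singleton]
    constructor
    · intro h2
      have h3 : src d = x ∨ dst d = x := by tauto
      exact h.inj ((hno d h3).trans (hno e he).symm)
    · rintro rfl h2
      rcases he with h3 | h3
      · exact hne (h3.trans (h2.mp h3).symm)
      · exact hne ((h2.mpr h3).trans h3.symm)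
  by_cases hD2 : D.card ≤ 2
  · have hsub : N ⊆ D.biUnion (fun w => (I v w ∩ N) ∪ Z v w) := by
      intro x hx
      obtain ⟨e, he, hev⟩ := hx1 x hx
      obtain ⟨w, hw, hew⟩ := side_first h.tree hev
      rw [mem_biUnion]
      refine ⟨w, (memD w).mpr hw, ?_⟩
      by_cases h1 : x ∈ I v w
      · exact mem_union_left _ (mem_inter.mpr ⟨h1, hx⟩)
      · rw [memI] at h1
        push Not at h1
        obtain ⟨d, hd, hd2⟩ := h1
        refine mem_union_right _ ((memZ v w x).mpr ⟨⟨e, he, hew⟩, d, hd, ?_⟩)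
        exact (side_or h.tree (leaf d)).resolve_left hd2
    have h1 : (D.biUnion (fun w => (I v w ∩ N) ∪ Z v w)).card ≤ D.card * 6 := by
      refine card_biUnion_le_card_mul _ _ _ fun w hw => ?_
      have h2 := hv w ((memD w).mp hw)
      have h3 := cZ v w ((memD w).mp hw)
      exact (card_union_le _ _).trans (by omega)
    have h2 := card_le_card hsub
    omega
  · have hD3 : D.card = 3 := by omega
    -- no leaf at `v`
    have hleaf : ∀ e, leaf e ≠ v := by
      intro e he
      have h1 := h.lf e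
      rw [he, Set.ncard_eq_toFinset_card'] at h1
      have h2 : D ⊆ (T.neighborSet v).toFinset := by
        intro x hx
        rw [Set.mem_toFinset]
        exact (memD x).mp hx
      have h3 := card_le_card h2
      omega
    obtain ⟨w0, hw0⟩ : D.Nonempty := card_pos.mp (by omega)
    have hsub : N ⊆ D.biUnion (fun w => I v w ∩ N) ∪ (D.erase w0).biUnion (fun w => Z v w) := by
      intro x hx
      obtain ⟨e, he, hev⟩ := hx1 x hx
      obtain ⟨w, hw, hew⟩ := side_first h.tree hev
      by_cases h1 : x ∈ I v w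
      · exact mem_union_left _ (mem_biUnion.mpr ⟨w, (memD w).mpr hw, mem_inter.mpr ⟨h1, hx⟩⟩)
      · rw [memI] at h1
        push Not at h1
        obtain ⟨d, hd, hd2⟩ := h1
        obtain ⟨w', hw', hdw'⟩ := side_first h.tree (hleaf d)
        have hww : w' ≠ w := by
          rintro rfl
          exact hd2 hdw'
        have hz1 : x ∈ Z v w := (memZ v w x).mpr ⟨⟨e, he, hew⟩, d, hd,
          (side_or h.tree (leaf d)).resolve_left hd2⟩
        have hz2 : x ∈ Z v w' := by
          refine (memZ v w' x).mpr ⟨⟨d, hd, hdw'⟩, e, he, ?_⟩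
          refine (side_or h.tree (leaf e)).resolve_left fun h5 => ?_
          exact side_disj h.tree hw' hw hww h5 hew
        refine mem_union_right _ (mem_biUnion.mpr ?_)
        by_cases h6 : w = w0
        · exact ⟨w', mem_erase.mpr ⟨h6 ▸ hww, (memD w').mpr hw'⟩, hz2⟩
        · exact ⟨w, mem_erase.mpr ⟨h6, (memD w).mpr hw⟩, hz1⟩
    have h1 : (D.biUnion (fun w => I v w ∩ N)).card ≤ D.card * 2 :=
      card_biUnion_le_card_mul _ _ _ fun w hw => hv w ((memD w).mp hw)
    have h2 : ((D.erase w0).biUnion (fun w => Z v w)).card ≤ (D.erase w0).card * 4 :=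
      card_biUnion_le_card_mul _ _ _ fun w hw => cZ v w ((memD w).mp (mem_of_mem_erase hw))
    rw [card_erase_of_mem hw0] at h2
    have h3 := card_le_card hsub
    have h4 := card_union_le (D.biUnion (fun w => I v w ∩ N))
      ((D.erase w0).biUnion (fun w => Z v w))
    omega

end Pool.Agent.N399.TB
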