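import Pool.Agent.TH497.T4.K3b

set_option autoImplicit false
set_option linter.unusedSectionVars false
set_option synthInstance.maxHeartbeats 400000
set_option synthInstance.maxSize 2048

/-! # The claw lemma

In a minimal counterexample there is no partition of the edges into two parts such that both parts
have a connected vertex set attached to the same three vertices, provided that the two graphs which
arise when one part is replaced by a claw have no bridges. -/

namespace Pool.Agent.N399.TB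

open Finset Pool.Agent.TH462.T4 Pool.Agent.TH676.T4 Pool.Agent.TH497.T4

variable {V E : Type} [Fintype V] [DecidableEq V] [Fintype E] [DecidableEq E]

/-- one side of an edge partition is replaced by a star -/
theorem star' {src dst : E → V} (h : MinCx src dst) {Z K : Finset V} {F : Finset E}
    (hZ : ∀ z ∈ Z, ∃ z' ∈ Z, z' ≠ z) (hZ0 : Z.Nonempty) (hKZ : ∀ z ∈ Z, z ∉ K)
    (hK : Conn src dst K) (hKF : ∀ e, (src e ∈ K ∨ dst e ∈ K) → e ∉ F) (en : V → E)
    (hen : ∀ z ∈ Z, Att src dst K z (en z))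
    (hl : ∀ Y : Finset V, ∀ z ∈ Z, ∀ z' ∈ Z, z ∈ Y → z' ∉ Y → ∃ e ∈ F, e ∈ crs src dst Y)
    (hY : ∀ Y : Finset V, (∀ z ∈ Z, z ∉ Y) → (crs src dst Y ∩ F).card ≠ 1)
    (hne : ∃ e, e ∉ F ∧ src e ≠ dst e ∧ ∀ z ∈ Z, e ≠ en z) :
    ∃ f : E → K4, (∀ e ∈ F, f e ≠ 0) ∧ (∀ z ∈ Z, bd src dst (rs F f) z ≠ 0) ∧
      ∀ v, v ∉ Z → bd src dst (rs F f) v = 0 := by
  classical
  set C : Finset E := univ.filter (fun e => src e ∈ K ∧ dst e ∈ K) with hC
  set D : Finset E := univ.filter (fun e => e ∉ F ∧ e ∉ C ∧ ∀ z ∈ Z, e ≠ en z) with hD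
  have mC : ∀ e, e ∈ C ↔ src e ∈ K ∧ dst e ∈ K := by intro e; rw [hC]; simp
  have mD : ∀ e, e ∈ D ↔ e ∉ F ∧ e ∉ C ∧ ∀ z ∈ Z, e ≠ en z := by intro e; rw [hD]; simp
  have hdis : Disjoint D C := disjoint_left.mpr fun e h1 h2 => ((mD e).mp h1).2.1 h2
  obtain ⟨z0, hz0⟩ := hZ0
  obtain ⟨k, hk⟩ : ∃ k, k ∈ K := by
    rcases hen z0 hz0 with ⟨h3, _⟩ | ⟨h3, _⟩
    · exact ⟨_, h3⟩
    · exact ⟨_, h3⟩
  have henK : ∀ z ∈ Z, src (en z) ∈ K ∨ dst (en z) ∈ K := by
    intro z hz
    rcases hen z hz with ⟨h3, _⟩ | ⟨h3, _⟩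
    · exact Or.inl h3
    · exact Or.inr h3
  have henF : ∀ z ∈ Z, en z ∉ F := fun z hz => hKF _ (henK z hz)
  have henC : ∀ z ∈ Z, en z ∉ C := by
    intro z hz hc
    rw [mC] at hc
    rcases hen z hz with ⟨h3, h4⟩ | ⟨h3, h4⟩
    · exact hKZ z hz (h4 ▸ hc.2)
    · exact hKZ z hz (h4 ▸ hc.1)
  have henD : ∀ z ∈ Z, en z ∉ D := fun z hz hd => ((mD _).mp hd).2.2 z hz rfl
  obtain ⟨f, hf0, hf1, hf2⟩ := h.crit D C hdis (by
    obtain ⟨e, h1, h2, h3⟩ := hne
    refine ⟨e, ?_, h2⟩
    rw [mem_union]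
    by_cases h4 : e ∈ C
    · exact Or.inr h4
    · exact Or.inl ((mD e).mpr ⟨h1, h4, h3⟩)) (by
    intro Y hYC hcard
    obtain ⟨g, hg⟩ := card_eq_one.mp hcard
    have hone : ∀ e, e ∈ crs src dst Y → e ∉ D → e = g := by
      intro e h1 h2
      have : e ∈ crs src dst Y \ D := mem_sdiff.mpr ⟨h1, h2⟩
      rw [hg] at this
      exact mem_singleton.mp this
    have hK2 : ∀ y ∈ K, (y ∈ Y ↔ k ∈ Y) := fun y hy => hK Y (fun e h1 h2 => by
      have h3 : e ∉ crs src dst Y := fun h4 => disjoint_left.mp hYC h4 ((mC e).mpr ⟨h1, h2⟩)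
      rw [mem_crs, not_not] at h3
      exact h3) y hy k hk
    have hcr : ∀ z ∈ Z, (en z ∈ crs src dst Y ↔ ¬ (z ∈ Y ↔ k ∈ Y)) :=
      fun z hz => (hen z hz).side hK2
    by_cases hA : ∃ z ∈ Z, ¬ (z ∈ Y ↔ k ∈ Y)
    · obtain ⟨z, hz, hzk⟩ := hA
      have h5 : en z = g := hone _ ((hcr z hz).mpr hzk) (henD z hz)
      obtain ⟨z', hz', hzz⟩ := hZ z hz
      by_cases hzk' : z' ∈ Y ↔ k ∈ Y
      · -- an edge of `F` crosses
        have h6 : ∃ e ∈ F, e ∈ crs src dst Y := by
          by_cases h7 : z ∈ Y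
          · exact hl Y z hz z' hz' h7 (by tauto)
          · exact hl Y z' hz' z hz (by tauto) h7
        obtain ⟨e, he, he2⟩ := h6
        have h8 := hone e he2 (fun hd => ((mD e).mp hd).1 he)
        rw [← h5] at h8
        exact henF z hz (h8 ▸ he)
      · have h6 : en z' = g := hone _ ((hcr z' hz').mpr hzk') (henD z' hz')
        have h7 := hen z' hz'
        rw [h6, ← h5] at h7
        exact hzz ((hen z hz).inj h7 (hKZ z hz)).symm
    · push Not at hA
      have h5 : crs src dst Y \ D = crs src dst Y ∩ F := by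
        ext e
        rw [mem_sdiff, mem_inter]
        constructor
        · rintro ⟨h6, h7⟩
          refine ⟨h6, ?_⟩
          by_contra h8
          apply h7
          rw [mD]
          refine ⟨h8, fun h9 => disjoint_left.mp hYC h6 h9, fun z hz h9 => ?_⟩
          rw [h9, hcr z hz] at h6
          exact h6 (hA z hz)
        · rintro ⟨h6, h7⟩
          exact ⟨h6, fun h8 => ((mD e).mp h8).1 h7⟩
      rw [h5] at hcard
      by_cases h7 : k ∈ Y
      · refine hY Yᶜ (fun z hz => by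
          rw [mem_compl, not_not]; exact (hA z hz).mpr h7) ?_
        rw [crs_compl]; exact hcard
      · exact hY Y (fun z hz h8 => h7 ((hA z hz).mp h8)) hcard)
  refine ⟨f, fun e he => hf2 e (fun hd => ((mD e).mp hd).1 he) (fun hc => ?_), ?_, ?_⟩
  · have := (mC e).mp hc
    exact hKF e (Or.inl this.1) he
  · intro z hz
    have hzne : f (en z) ≠ 0 := hf2 _ (henD z hz) (henC z hz)
    have e1 : bd src dst (rs Fᶜ f) z = bd src dst (Pi.single (en z) (f (en z))) z := by
      refine bd_eq_of _ _ _ fun e he => ?_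
      by_cases h1 : e = en z
      · subst h1
        rw [Pi.single_eq_same]
        have : en z ∈ Fᶜ := mem_compl.mpr (henF z hz)
        simp [rs, this]
      · rw [Pi.single_eq_of_ne h1]
        unfold rs
        split_ifs with h2
        · by_cases h3 : e ∈ C
          · have := (mC e).mp h3
            rcases he with he | he
            · exact absurd (he ▸ this.1) (hKZ z hz)
            · exact absurd (he ▸ this.2) (hKZ z hz)
          · by_cases h4 : e ∈ D
            · exact hf1 e h4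
            · exfalso
              apply h4
              rw [mD]
              refine ⟨mem_compl.mp h2, h3, fun z' hz' h5 => ?_⟩
              have h6 := hen z' hz'
              rw [← h5] at h6
              apply h1
              have h7 : z' = z := by
                rcases h6 with ⟨h8, h9⟩ | ⟨h8, h9⟩
                · rcases he with he | he
                  · exact absurd (he ▸ h8) (hKZ z hz)
                  · exact h9.symm.trans he
                · rcases he with he | he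
                  · exact h9.symm.trans he
                  · exact absurd (he ▸ h8) (hKZ z hz)
              rw [h5, h7]
        · rfl
    rw [← bd_rs_compl F f z (hf0 z), e1, bd_single]
    rcases hen z hz with ⟨h8, h9⟩ | ⟨h8, h9⟩
    · have h10 : src (en z) ≠ z := fun h11 => hKZ z hz (h11 ▸ h8)
      rw [if_neg h10, if_pos h9, zero_add]; exact hzne
    · have h10 : dst (en z) ≠ z := fun h11 => hKZ z hz (h11 ▸ h8)
      rw [if_pos h9, if_neg h10, add_zero]; exact hzne
  · intro v hv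
    by_cases hvK : v ∈ K
    · refine bd_zero_of _ _ fun e he => ?_
      have : e ∉ F := hKF e (by
        rcases he with he | he
        · exact Or.inl (he ▸ hvK)
        · exact Or.inr (he ▸ hvK))
      simp [rs, this]
    · rw [← bd_rs_compl F f v (hf0 v)]
      refine bd_zero_of _ _ fun e he => ?_
      by_cases h2 : e ∈ F
      · simp [rs, h2]
      · have h3 : e ∈ D := by
          rw [mD]
          refine ⟨h2, fun h4 => ?_, fun z hz h4 => ?_⟩
          · have := (mC e).mp h4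
            rcases he with he | he
            · exact hvK (he ▸ this.1)
            · exact hvK (he ▸ this.2)
          · subst h4
            rcases hen z hz with ⟨h8, h9⟩ | ⟨h8, h9⟩
            · rcases he with he | he
              · exact hvK (he ▸ h8)
              · exact hv (by rw [← he, h9]; exact hz)
            · rcases he with he | he
              · exact hv (by rw [← he, h9]; exact hz)
              · exact hvK (he ▸ h8)
        simp [rs, hf1 e h3]

/-- **The claw lemma.** -/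
theorem claw {src dst : E → V} (h : MinCx src dst) {Z K1 K2 : Finset V} {A : Finset E}
    (h2 : 2 ≤ Z.card) (h3 : Z.card ≤ 3)
    (c1 : Conn src dst K1) (c2 : Conn src dst K2) (d1 : ∀ z ∈ Z, z ∉ K1) (d2 : ∀ z ∈ Z, z ∉ K2)
    (t1 : ∀ e, (src e ∈ K1 ∨ dst e ∈ K1) → e ∈ A) (t2 : ∀ e, (src e ∈ K2 ∨ dst e ∈ K2) → e ∉ A)
    (a1 : ∀ z ∈ Z, ∃ e, Att src dst K1 z e) (a2 : ∀ z ∈ Z, ∃ e, Att src dst K2 z e)
    (b1 : ∀ Y : Finset V, (∀ z ∈ Z, z ∉ Y) → (crs src dst Y ∩ A).card ≠ 1)
    (b2 : ∀ Y : Finset V, (∀ z ∈ Z, z ∉ Y) → (crs src dst Y ∩ Aᶜ).card ≠ 1)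
    (n1 : ∀ en : V → E, (∀ z ∈ Z, Att src dst K1 z (en z)) →
      ∃ e ∈ A, src e ≠ dst e ∧ ∀ z ∈ Z, e ≠ en z)
    (n2 : ∀ en : V → E, (∀ z ∈ Z, Att src dst K2 z (en z)) →
      ∃ e, e ∉ A ∧ src e ≠ dst e ∧ ∀ z ∈ Z, e ≠ en z) : False := by
  classical
  have hZ2 : ∀ z ∈ Z, ∃ z' ∈ Z, z' ≠ z := fun z _ => exists_mem_ne (by omega) z
  have hZ0 : Z.Nonempty := card_pos.mp (by omega)
  obtain ⟨z0, hz0⟩ := hZ0
  haveI : Nonempty E := ⟨(a1 z0 hz0).choose⟩
  have hE : ∃ en : V → E, ∀ z ∈ Z, Att src dst K1 z (en z) :=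
    ⟨fun z => if hz : z ∈ Z then (a1 z hz).choose else Classical.arbitrary E,
      fun z hz => by simp only [hz, dif_pos]; exact (a1 z hz).choose_spec⟩
  have hE' : ∃ en : V → E, ∀ z ∈ Z, Att src dst K2 z (en z) :=
    ⟨fun z => if hz : z ∈ Z then (a2 z hz).choose else Classical.arbitrary E,
      fun z hz => by simp only [hz, dif_pos]; exact (a2 z hz).choose_spec⟩
  obtain ⟨en, hen⟩ := hE
  obtain ⟨en', hen'⟩ := hE'
  obtain ⟨f1, g1, g2, g3⟩ := star' h (Z := Z) (K := K2) (F := A) hZ2 ⟨z0, hz0⟩ d2 c2 t2 en' hen'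
    (fun Y z hz z' hz' hzY hzY' => link c1 t1 (hen z hz) (hen z' hz') Y hzY hzY') b1
    (n2 en' hen')
  obtain ⟨f2, k1, k2, k3⟩ := star' h (Z := Z) (K := K1) (F := Aᶜ) hZ2 ⟨z0, hz0⟩ d1 c1
    (fun e he h5 => (mem_compl.mp h5) (t1 e he)) en hen
    (fun Y z hz z' hz' hzY hzY' =>
      link c2 (fun e he => mem_compl.mpr (t2 e he)) (hen' z hz) (hen' z' hz') Y hzY hzY') b2 (by
      obtain ⟨e, h5, h6, h7⟩ := n1 en hen
      exact ⟨e, fun h8 => (mem_compl.mp h8) h5, h6, h7⟩)
  have sumZ : ∀ (f : E → K4), (∀ v, v ∉ Z → bd src dst f v = 0) → ∑ z ∈ Z, bd src dst f z = 0 := by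
    intro f hf
    rw [← sum_bd src dst f]
    exact sum_subset (subset_univ _) (fun v _ hv => hf v hv)
  obtain ⟨σ, hσ, hσ2⟩ := hom_of h2 h3 (fun z => bd src dst (rs A f1) z)
    (fun z => bd src dst (rs Aᶜ f2) z) (sumZ _ g3) (sumZ _ k3) g2 k2
  refine h.nf ⟨fun e => if e ∈ A then σ (f1 e) else f2 e, fun v => ?_,
    fun e he => absurd he (notMem_empty _), fun e _ _ => ?_⟩
  · have e1 : (fun e => if e ∈ A then σ (f1 e) else f2 e) =
        (fun e => σ (rs A f1 e)) + rs Aᶜ f2 := by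
      funext e
      by_cases h5 : e ∈ A <;> simp [rs, h5]
    rw [e1, bd_add, bd_hom]
    by_cases hv : v ∈ Z
    · rw [hσ2 v hv]; exact K4.add_self _
    · rw [g3 v hv, k3 v hv, map_zero, add_zero]
  · change (if e ∈ A then σ (f1 e) else f2 e) ≠ 0
    split_ifs with h5
    · exact fun h6 => g1 e h5 (hσ _ h6)
    · exact k1 e (mem_compl.mpr h5)

end Pool.Agent.N399.TB
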