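import Pool.Agent.TH443.P5.TRANS

set_option autoImplicit false
set_option linter.unusedSectionVars false

/-!
# From flows to coverings by two cycles
-/

namespace Pool.Agent.N399.TB

open Finset Pool.Agent.TH462.T4 Pool.Agent.TH676.T4 Pool.Agent.TH395.P5 Pool.Agent.TH443.P5

variable {V E : Type} [Fintype V] [DecidableEq V] [Fintype E] [DecidableEq E]

theorem two_cycles {src dst : E → V}
    (hcls : ¬ PetMinor src dst → Br src dst ∅ ∅ → FlowOn src dst ∅ ∅)
    (hiso : ∀ e, ¬ IsIsthmus src dst e) (hPet : ¬ HasPetersenMinor src dst) :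
    ∃ C₁ C₂ : Finset E, IsCycle src dst C₁ ∧ IsCycle src dst C₂ ∧ C₁ ∪ C₂ = Finset.univ := by
  obtain ⟨f, hf, -, hf0⟩ := hcls (fun h => hPet (pet_minor h)) (no_one_cut hiso)
  refine ⟨univ.filter (fun e => (f e).1 ≠ 0), univ.filter (fun e => (f e).2 ≠ 0), ?_, ?_, ?_⟩
  · intro v
    refine even_of_sum (fun e => (f e).1) v ?_
    have h1 := congrArg Prod.fst (hf v)
    unfold bd at h1
    rw [Prod.fst_sum] at h1
    refine Eq.trans ?_ h1
    · refine sum_congr rfl fun e _ => ?_
      rw [Prod.fst_add]
      split_ifs <;> rfl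
  · intro v
    refine even_of_sum (fun e => (f e).2) v ?_
    have h1 := congrArg Prod.snd (hf v)
    unfold bd at h1
    rw [Prod.snd_sum] at h1
    refine Eq.trans ?_ h1
    · refine sum_congr rfl fun e _ => ?_
      rw [Prod.snd_add]
      split_ifs <;> rfl
  · ext e
    simp only [mem_union, mem_filter, mem_univ, true_and, iff_true]
    by_contra h
    push Not at h
    exact hf0 e (notMem_empty e) (notMem_empty e) (Prod.ext h.1 h.2)

end Pool.Agent.N399.TB
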