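import Pool.Agent.N399.TB.Branch
import Pool.Agent.TH362.TF.Main
import Pool.Agent.Y642.RN.A

set_option autoImplicit false
set_option linter.unusedSectionVars false

/-!
# Minimal counterexamples without Petersen minor have at least eighteen vertices
-/

namespace Pool.Agent.N399.TB

open Finset Pool.Agent.TH462.T4 Pool.Agent.TH676.T4 Pool.Agent.TH497.T4

variable {V E : Type} [Fintype V] [DecidableEq V] [Fintype E] [DecidableEq E]

theorem n1_of_br {src dst : E → V} (h : Br src dst ∅ ∅) : TH362.TF.N1 src dst univ := by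
  apply Y642.RN.n1_of
  intro Y
  have h1 := h Y (disjoint_empty_right _)
  rw [sdiff_empty] at h1
  exact h1

theorem padj_pet : ∀ x ∈ petEdges, TH362.TF.padj x.1 x.2 = true := by decide

theorem padj_ne : ∀ k l, TH362.TF.padj k l = true → k ≠ l := by decide

theorem padj_all : ∀ k, ∃ l, TH362.TF.padj k l = true := by decide

theorem two_others : ∀ k : Fin 10, ∃ a b : Fin 10, a ≠ k ∧ b ≠ k ∧ a ≠ b := by decide

theorem no_pq {src dst : E → V} (hM : MinCx src dst) (hP : ¬ PetMinor src dst) :
    ¬ TH362.TF.PQ src dst univ := by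
  classical
  rintro ⟨κ, c1, c2⟩
  have hnis : ∀ k, ∃ x, κ x = k ∧ Nis src dst x := by
    intro k
    obtain ⟨l, hl⟩ := padj_all k
    obtain ⟨e, _, he⟩ := c2 k l hl
    have hkl := padj_ne k l hl
    have hne : src e ≠ dst e := by
      intro h
      rcases he with ⟨h1, h2⟩ | ⟨h1, h2⟩
      · exact hkl (by rw [← h1, ← h2, h])
      · exact hkl (by rw [← h1, ← h2, h])
    rcases he with ⟨h1, h2⟩ | ⟨h1, h2⟩
    · exact ⟨src e, h1, e, hne, Or.inl rfl⟩
    · exact ⟨dst e, h2, e, hne, Or.inr rfl⟩
  choose β b1 b2 using hnis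
  have huniq : ∀ k x, κ x = k → Nis src dst x → x = β k := by
    intro k x hx nx
    by_contra hne
    obtain ⟨a, b, ha, hb, hab⟩ := two_others k
    have h1 := cut4 hM (Y := univ.filter (fun v => κ v = k)) (x := x) (x2 := β k) (y := β a)
      (y2 := β b) (by simp [hx]) (by simp [b1]) hne (by simp [b1, ha]) (by simp [b1, hb])
      (fun h => hab (by rw [← b1 a, ← b1 b, h])) nx (b2 k) (b2 a) (b2 b)
    have h2 := c1 k
    have h3 : crs src dst (univ.filter (fun v => κ v = k)) =
        TH362.TF.cut src dst univ (fun v => decide (κ v = k)) := by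
      ext e
      rw [mem_crs, TH362.TF.cut, mem_filter, mem_filter, mem_filter]
      simp
    rw [h3] at h1
    omega
  refine hP (PetMinor.of_vertices β (fun k l h => ?_) fun x hx => ?_)
  · rw [← b1 k, ← b1 l, h]
  · obtain ⟨e, _, he⟩ := c2 x.1 x.2 (padj_pet x hx)
    have hkl := padj_ne x.1 x.2 (padj_pet x hx)
    have hne : src e ≠ dst e := by
      intro h
      rcases he with ⟨h1, h2⟩ | ⟨h1, h2⟩
      · exact hkl (by rw [← h1, ← h2, h])
      · exact hkl (by rw [← h1, ← h2, h])
    refine ⟨e, ?_⟩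
    rcases he with ⟨h1, h2⟩ | ⟨h1, h2⟩
    · exact Or.inl ⟨huniq _ _ h1 ⟨e, hne, Or.inl rfl⟩, huniq _ _ h2 ⟨e, hne, Or.inr rfl⟩⟩
    · exact Or.inr ⟨huniq _ _ h1 ⟨e, hne, Or.inl rfl⟩, huniq _ _ h2 ⟨e, hne, Or.inr rfl⟩⟩

theorem odd18 {src dst : E → V} (hM : MinCx src dst) (hP : ¬ PetMinor src dst) :
    18 ≤ (TH362.TF.odd src dst univ).card := by
  have h1 : ¬ (TH362.TF.odd src dst univ).card ≤ 16 := by
    intro h2
    rcases TH362.TF.main16 src dst univ (n1_of_br hM.br) h2 with h3 | h3
    · obtain ⟨f, f1, f2⟩ := h3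
      exact hM.nf ⟨f, fun v => f2 v, fun e he => absurd he (notMem_empty _),
        fun e _ _ => f1 e (mem_univ _)⟩
    · exact no_pq hM hP h3
  have h2 := TH362.TF.parity src dst univ (fun _ => true)
  have h3 : TH362.TF.cut src dst univ (fun _ => true) = ∅ := by
    unfold TH362.TF.cut
    rw [Finset.filter_eq_empty_iff]
    intro x _ hx
    exact hx rfl
  rw [h3, card_empty] at h2
  have h4 : (TH362.TF.odd src dst univ).filter (fun _ => (true : Bool) = true) =
      TH362.TF.odd src dst univ := by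
    rw [Finset.filter_eq_self]
    intro x _
    rfl
  rw [h4] at h2
  omega

open Classical in
theorem many {src dst : E → V} (hM : MinCx src dst) (hP : ¬ PetMinor src dst) :
    18 ≤ (univ.filter (fun v => Nis src dst v)).card := by
  refine le_trans (odd18 hM hP) (card_le_card (?_ : TH362.TF.odd src dst univ ⊆ _))
  intro v hv
  rw [TH362.TF.odd, mem_filter] at hv
  rw [mem_filter]
  refine ⟨mem_univ _, ?_⟩
  by_contra hno
  have h3 : ∀ e, src e = dst e ∨ (src e ≠ v ∧ dst e ≠ v) := by
    intro e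
    by_contra h4
    push Not at h4
    refine hno ⟨e, h4.1, ?_⟩
    by_cases h5 : src e = v
    · exact Or.inl h5
    · exact Or.inr (h4.2 h5)
  have h4 : Even (TH362.TF.deg src dst univ v) := by
    unfold TH362.TF.deg
    refine Finset.even_sum _ fun e _ => ?_
    rcases h3 e with h5 | ⟨h5, h6⟩
    · rw [h5]
      exact Even.add_self _
    · rw [if_neg h5, if_neg h6]
      exact Even.add_self _
  exact (Nat.not_even_iff_odd.mpr hv.2) h4

/-- **Branchwidth four.**  A bridgeless multigraph of branchwidth at most four without a Petersen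
minor has a nowhere-zero flow over the group of order four. -/
theorem bw4 {src dst : E → V} (hB : HasBD src dst) (hP : ¬ PetMinor src dst)
    (hbr : Br src dst ∅ ∅) : FlowOn src dst ∅ ∅ := by
  by_contra hf
  obtain ⟨s, d, ⟨h1, h2⟩, hM⟩ := exists_minCx (MC.and mc_bd mc_noPet) src dst ⟨hB, hP⟩ hbr hf
  exact bd_false hM (le_trans (by omega) (many hM h2)) h1

end Pool.Agent.N399.TB
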