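import Pool.Agent.TH676.T4.Cut
import Pool.Agent.TH676.Blk.Main

set_option autoImplicit false
set_option linter.unusedSectionVars false

/-!
# Cographic tangential 2-blocks are minimal graphs without nowhere-zero flow
-/

namespace Pool.Agent.N399.TB

open Finset Pool.Agent.TH462.T4 Pool.Agent.TH676.T4 Pool.Agent.TH676.Blk

variable {n : ℕ} {S : Set (Fin n → ZMod 2)} {V E : Type} [Fintype V] [DecidableEq V]
    [Fintype E] [DecidableEq E] {src dst : E → V} {vec : E → Fin n → ZMod 2}

/-- the flow of a linear map -/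
theorem flow_of_map (hv : RepCo src dst vec) (L : (Fin n → ZMod 2) →ₗ[ZMod 2] (Fin 2 → ZMod 2))
    (v : V) : bd src dst (fun e => ((L (vec e)) 0, (L (vec e)) 1)) v = 0 := by
  have h1 : ∑ e, star src dst v e • vec e = 0 := (hv _).mpr (Submodule.subset_span ⟨v, rfl⟩)
  have h2 : ∑ e, star src dst v e • L (vec e) = 0 := by
    rw [← map_zero L, ← h1, map_sum]
    refine sum_congr rfl fun e _ => ?_
    rw [map_smul]
  show TH499.TF.dv src dst (fun e => ((L (vec e)) 0, (L (vec e)) 1)) v = 0
  refine Prod.ext ?_ ?_
  · rw [dv_fst]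
    have h3 := congrFun h2 0
    rw [Finset.sum_apply] at h3
    refine Eq.trans ?_ h3
    refine sum_congr rfl fun e _ => ?_
    rw [Pi.smul_apply, smul_eq_mul, mul_comm]
  · rw [dv_snd]
    have h3 := congrFun h2 1
    rw [Finset.sum_apply] at h3
    refine Eq.trans ?_ h3
    refine sum_congr rfl fun e _ => ?_
    rw [Pi.smul_apply, smul_eq_mul, mul_comm]

theorem ne_zero_pair {x : Fin 2 → ZMod 2} (h : x ≠ 0) : ((x 0, x 1) : K4) ≠ 0 := by
  intro h2
  apply h
  funext i
  fin_cases i
  · exact congrArg Prod.fst h2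
  · exact congrArg Prod.snd h2

theorem tang_minCx (hv : RepCo src dst vec) (hr : Set.range vec = S)
    (hinj : Function.Injective vec) (hz : (0 : Fin n → ZMod 2) ∉ S)
    (hL : ¬ ∃ L : (Fin n → ZMod 2) →ₗ[ZMod 2] (Fin 2 → ZMod 2), ∀ s ∈ S, L s ≠ 0)
    (htan : ∀ C T : Set (Fin n → ZMod 2), C ⊆ S → T ⊆ S → T ≠ S →
      (∀ t ∈ T, t ∉ Submodule.span (ZMod 2) C) →
      ∃ L : (Fin n → ZMod 2) →ₗ[ZMod 2] (Fin 2 → ZMod 2),
        (∀ c ∈ C, L c = 0) ∧ ∀ t ∈ T, L t ≠ 0) :
    MinCx src dst ∧ ∀ e, src e ≠ dst e := by
  have h0 : ∀ e, vec e ≠ 0 := by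
    intro e he
    apply hz
    rw [← hr, ← he]
    exact ⟨e, rfl⟩
  have hnf : ¬ FlowOn src dst ∅ ∅ := by
    rintro ⟨f, f1, _, f3⟩
    obtain ⟨L, hL'⟩ := hv.map ⟨f, fun e => f3 e (notMem_empty _) (notMem_empty _),
      fun x => f1 x⟩
    apply hL
    refine ⟨L, fun s hs => ?_⟩
    rw [← hr] at hs
    obtain ⟨e, rfl⟩ := hs
    exact hL' e
  refine ⟨⟨?_, hnf, ?_⟩, ?_⟩
  · intro Y _
    rw [sdiff_empty]
    exact hv.br h0 Y
  · rintro D C hDC ⟨e0, he0, _⟩ hbr
    obtain ⟨L, L1, L2⟩ := htan (vec '' (D : Set E)) (vec '' {e | e ∉ D ∧ e ∉ C}) (by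
        rintro _ ⟨e, _, rfl⟩
        rw [← hr]
        exact ⟨e, rfl⟩) (by
        rintro _ ⟨e, _, rfl⟩
        rw [← hr]
        exact ⟨e, rfl⟩) (by
        intro hS
        have h1 : vec e0 ∈ vec '' {e | e ∉ D ∧ e ∉ C} := by
          rw [hS, ← hr]
          exact ⟨e0, rfl⟩
        obtain ⟨e, he, hee⟩ := h1
        rw [hinj hee] at he
        rcases mem_union.mp he0 with h2 | h2
        · exact he.1 h2
        · exact he.2 h2) (by
        rintro _ ⟨e, ⟨heD, heC⟩, rfl⟩ hsp
        -- a cut which is contained in `D` up to `e`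
        rw [Submodule.mem_span_image_finset_iff_exists_fun] at hsp
        obtain ⟨c0, hc0⟩ := hsp
        set c : E → ZMod 2 := fun d => if h : d ∈ D then c0 ⟨d, h⟩ else 0 with hcdef
        have hc : ∑ d ∈ D, c d • vec d = vec e := by
          rw [← hc0, ← Finset.sum_coe_sort D (fun d => c d • vec d)]
          refine sum_congr rfl fun i _ => ?_
          have h8 : c i = c0 i := by
            rw [hcdef]
            exact dif_pos i.2
          rw [h8]
        have h3 : ∑ d, (Pi.single e 1 + fun d => if d ∈ D then c d else 0 : E → ZMod 2) d •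
            vec d = 0 := by
          simp only [Pi.add_apply, add_smul]
          rw [sum_add_distrib]
          have h4 : ∑ d, (Pi.single e 1 : E → ZMod 2) d • vec d = vec e := by
            rw [sum_eq_single e]
            · simp
            · intro b _ hb
              rw [Pi.single_eq_of_ne hb, zero_smul]
            · intro h; exact absurd (Finset.mem_univ e) h
          have h5 : ∑ d, (if d ∈ D then c d else 0) • vec d = vec e := by
            rw [← hc]
            simp only [ite_smul, zero_smul]
            rw [sum_ite_mem, univ_inter]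
          rw [h4, h5]
          funext i
          exact CharTwo.add_self_eq_zero _
        obtain ⟨Y, hY'⟩ := mem_cutspace src dst _ ((hv _).mp h3)
        have hY : ∀ d, (Pi.single e 1 + fun d => if d ∈ D then c d else 0 : E → ZMod 2) d =
            if d ∈ crs src dst Y then 1 else 0 := hY'
        have h6 : ∀ d, d ∈ crs src dst Y ↔
            (Pi.single e 1 + fun d => if d ∈ D then c d else 0 : E → ZMod 2) d ≠ 0 := by
          intro d
          have h7 := hY d
          constructor
          · intro h8 h9
            rw [h7, if_pos h8] at h9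
            exact one_ne_zero h9
          · intro h8
            by_contra h9
            rw [h7, if_neg h9] at h8
            exact h8 rfl
        have h10 : e ∈ crs src dst Y := by
          rw [h6]
          simp [heD]
        have h11 : ∀ d ∈ crs src dst Y, d = e ∨ d ∈ D := by
          intro d hd
          rw [h6] at hd
          by_contra h12
          push Not at h12
          apply hd
          simp [h12.1, h12.2]
        refine hbr Y ?_ ?_
        · rw [disjoint_left]
          intro d hd hdC
          rcases h11 d hd with rfl | h12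
          · exact heC hdC
          · exact disjoint_left.mp hDC h12 hdC
        · rw [card_eq_one]
          refine ⟨e, ?_⟩
          ext d
          rw [mem_sdiff, mem_singleton]
          constructor
          · rintro ⟨h12, h13⟩
            exact (h11 d h12).resolve_right h13
          · rintro rfl
            exact ⟨h10, heD⟩)
    refine ⟨fun e => ((L (vec e)) 0, (L (vec e)) 1), flow_of_map hv L, fun e he => ?_,
      fun e h1 h2 => ?_⟩
    · show (((L (vec e)) 0, (L (vec e)) 1) : K4) = 0
      rw [L1 _ ⟨e, he, rfl⟩]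
      rfl
    · exact ne_zero_pair (L2 _ ⟨e, ⟨h1, h2⟩, rfl⟩)
  · intro e he
    obtain ⟨L, -, L2⟩ := htan ∅ (S \ {vec e}) (Set.empty_subset _) Set.sdiff_subset (by
        intro h
        have h1 : vec e ∈ S := by
          rw [← hr]
          exact ⟨e, rfl⟩
        rw [← h] at h1
        exact h1.2 rfl) (by
        intro t ht h1
        rw [Submodule.span_empty, Submodule.mem_bot] at h1
        rw [h1] at ht
        exact hz ht.1)
    apply hnf
    have ht : ∀ a : K4, ∃ t : K4, a + t ≠ 0 := by decide
    obtain ⟨t, ht⟩ := ht ((L (vec e)) 0, (L (vec e)) 1)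
    refine ⟨(fun e => ((L (vec e)) 0, (L (vec e)) 1)) + Pi.single e t, fun v => ?_,
      fun d hd => absurd hd (notMem_empty _), fun d _ _ => ?_⟩
    · rw [bd_add, flow_of_map hv L, bd_single, he, zero_add]
      exact K4.add_self _
    · by_cases hd : d = e
      · subst hd
        rw [Pi.add_apply, Pi.single_eq_same]
        exact ht
      · rw [Pi.add_apply, Pi.single_eq_of_ne hd, add_zero]
        refine ne_zero_pair (L2 _ ⟨?_, fun h => hd (hinj h)⟩)
        rw [← hr]
        exact ⟨d, rfl⟩

end Pool.Agent.N399.TB
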