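import Mathlib

set_option autoImplicit false
set_option linter.unusedSectionVars false

/-!
# Edges of trees and their two sides
-/

namespace Pool.Agent.N399.TB

open SimpleGraph

variable {ι : Type}

/-- the nodes on the side of `b` of the edge `ab` -/
def Side (T : SimpleGraph ι) (a b : ι) : Set ι := {x | (T.deleteEdges {s(a, b)}).Reachable b x}

theorem side_or {T : SimpleGraph ι} (hT : T.IsTree) {a b : ι} (x : ι) :
    x ∈ Side T a b ∨ x ∈ Side T b a := by
  obtain ⟨p⟩ := hT.1.preconnected x a
  induction p with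
  | nil => exact Or.inr (Reachable.refl _)
  | cons hxy q ih =>
    rename_i u v w
    by_cases he : s(u, v) = s(w, b)
    · rcases Sym2.eq_iff.mp he with ⟨h1, _⟩ | ⟨h1, _⟩
      · exact Or.inr (h1 ▸ Reachable.refl _)
      · exact Or.inl (h1 ▸ Reachable.refl _)
    · rcases ih with h1 | h1
      · refine Or.inl (Reachable.trans h1 (Adj.reachable ?_))
        rw [deleteEdges_adj]
        exact ⟨hxy.symm, fun h => he (by rw [Sym2.eq_swap]; exact h)⟩
      · refine Or.inr (Reachable.trans h1 (Adj.reachable ?_))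
        rw [deleteEdges_adj]
        refine ⟨hxy.symm, fun h => he ?_⟩
        have h2 : s(v, u) = s(b, w) := h
        rw [Sym2.eq_swap, h2, Sym2.eq_swap]

theorem side_not {T : SimpleGraph ι} (hT : T.IsTree) {a b : ι} (hab : T.Adj a b) {x : ι}
    (h1 : x ∈ Side T a b) (h2 : x ∈ Side T b a) : False := by
  have hb : T.IsBridge s(a, b) := isAcyclic_iff_forall_adj_isBridge.mp hT.2 hab
  rw [isBridge_iff] at hb
  refine hb ?_
  have h3 : (T.deleteEdges {s(b, a)}).Reachable a x := h2
  rw [Sym2.eq_swap] at h3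
  exact h3.trans (show (T.deleteEdges {s(a, b)}).Reachable b x from h1).symm

theorem side_first {T : SimpleGraph ι} (hT : T.IsTree) {v x : ι} (hx : x ≠ v) :
    ∃ w, T.Adj v w ∧ x ∈ Side T v w := by
  classical
  obtain ⟨p, hp⟩ := (hT.1.preconnected v x).exists_isPath
  cases p with
  | nil => exact absurd rfl hx
  | cons h q =>
    rename_i w
    refine ⟨w, h, ?_⟩
    rw [Walk.cons_isPath_iff] at hp
    refine ⟨q.toDeleteEdges {s(v, w)} fun e he h2 => ?_⟩
    have h3 : e = s(v, w) := h2
    rw [h3] at he
    exact hp.2 (Walk.fst_mem_support_of_mem_edges q he)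

theorem side_disj {T : SimpleGraph ι} (hT : T.IsTree) {v w w' x : ι} (h : T.Adj v w)
    (h' : T.Adj v w') (hne : w ≠ w') (h1 : x ∈ Side T v w) (h2 : x ∈ Side T v w') : False := by
  classical
  obtain ⟨p⟩ := h2
  have hb' : ¬ (T.deleteEdges {s(v, w')}).Reachable w' v := by
    intro h3
    exact side_not hT h' (x := v) h3 (Reachable.refl _)
  have hv : v ∉ p.support := fun h3 => hb' ⟨p.takeUntil v h3⟩
  refine side_not hT h (x := x) h1 ?_
  have h4 : (T.deleteEdges {s(w, v)}).Adj v w' := by
    rw [deleteEdges_adj]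
    refine ⟨h', fun h5 => ?_⟩
    rcases Sym2.eq_iff.mp (show s(v, w') = s(w, v) from h5) with ⟨h6, _⟩ | ⟨_, h6⟩
    · exact h.ne h6
    · exact hne h6.symm
  refine (Adj.reachable h4).trans ?_
  have hle : ∀ (y z : ι) (q : (T.deleteEdges {s(v, w')}).Walk y z), v ∉ q.support →
      (T.deleteEdges {s(w, v)}).Reachable y z := by
    intro y z q
    induction q with
    | nil => intro _; exact Reachable.refl _
    | cons hyz q ih =>
      rename_i a b c
      intro h5
      rw [Walk.support_cons, List.mem_cons, not_or] at h5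
      refine (Adj.reachable ?_).trans (ih h5.2)
      rw [deleteEdges_adj] at hyz ⊢
      refine ⟨hyz.1, fun h6 => ?_⟩
      rcases Sym2.eq_iff.mp (show s(a, b) = s(w, v) from h6) with ⟨_, h7⟩ | ⟨h7, _⟩
      · exact h5.2 (h7 ▸ Walk.start_mem_support q)
      · exact h5.1 h7.symm
  exact hle _ _ p hv

/-- **Sinks.**  If every edge of a finite tree is directed then some node has no outgoing edge. -/
theorem tree_sink [Fintype ι] {T : SimpleGraph ι} (hT : T.IsTree) (P : ι → ι → Prop)
    (h : ∀ a b, T.Adj a b → P a b ∨ P b a) : ∃ v, ∀ w, T.Adj v w → P v w := by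
  classical
  by_contra hno
  push Not at hno
  choose f hf hP using hno
  have hff : ∀ v, f (f v) ≠ v := by
    intro v hv
    rcases h v (f v) (hf v) with h1 | h1
    · exact hP v h1
    · have := hP (f v)
      rw [hv] at this
      exact this h1
  have hinj : Function.Injective (fun v => (⟨s(v, f v), hf v⟩ : T.edgeSet)) := by
    intro v w hvw
    have h1 : s(v, f v) = s(w, f w) := congrArg Subtype.val hvw
    rcases Sym2.eq_iff.mp h1 with ⟨h2, _⟩ | ⟨h2, h3⟩
    · exact h2
    · exact absurd (by rw [h3]; exact h2.symm) (hff v)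
  have h1 := Nat.card_le_card_of_injective _ hinj
  have h2 := hT.card_edgeFinset
  rw [edgeFinset_card, ← Nat.card_eq_fintype_card] at h2
  rw [← Nat.card_eq_fintype_card] at h2
  have h3 : Nat.card T.edgeSet = Nat.card { x // x ∈ T.edgeSet } := rfl
  omega

end Pool.Agent.N399.TB
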